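import Pool.Agent.Lib.MP_d1968e_gt.Defs

/-!
# Fox colourings of Gauss words
-/

namespace Pool.Agent.Lib.MP_d1968e_gt

variable {α : Type} {R : Type} [CommRing R]

/-- `Runs c w x y`: travelling along `w` with the colour `x`, over strands coloured by `c`, one
arrives with the colour `y`. -/
def Runs (c : α → R) : List (α × Bool) → R → R → Prop
  | [], x, y => x = y
  | (i, true) :: w, x, y => x = c i ∧ Runs c w x y
  | (i, false) :: w, x, y => Runs c w (2 * c i - x) y

@[simp] theorem runs_nil (c : α → R) (x y : R) : Runs c [] x y ↔ x = y := Iff.rfl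

@[simp] theorem runs_true (c : α → R) (i : α) (w : List (α × Bool)) (x y : R) :
    Runs c ((i, true) :: w) x y ↔ x = c i ∧ Runs c w x y := Iff.rfl

@[simp] theorem runs_false (c : α → R) (i : α) (w : List (α × Bool)) (x y : R) :
    Runs c ((i, false) :: w) x y ↔ Runs c w (2 * c i - x) y := Iff.rfl

theorem runs_append (c : α → R) (u v : List (α × Bool)) (x y : R) :
    Runs c (u ++ v) x y ↔ ∃ z, Runs c u x z ∧ Runs c v z y := by
  induction u generalizing x with
  | nil => simp
  | cons a u ih =>
    obtain ⟨i, b⟩ := a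
    cases b
    · simp only [List.cons_append, runs_false, ih]
    · simp only [List.cons_append, runs_true, ih]
      constructor
      · rintro ⟨h, z, hz⟩
        exact ⟨z, ⟨h, hz.1⟩, hz.2⟩
      · rintro ⟨z, ⟨h, hz⟩, h2⟩
        exact ⟨h, z, hz, h2⟩

theorem runs_congr {c c' : α → R} {w : List (α × Bool)} (h : ∀ l ∈ w, c l.1 = c' l.1)
    (x y : R) : Runs c w x y ↔ Runs c' w x y := by
  induction w generalizing x with
  | nil => simp
  | cons a w ih =>
    obtain ⟨i, b⟩ := a
    have h1 : c i = c' i := h (i, b) (by simp)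
    have h2 : ∀ l ∈ w, c l.1 = c' l.1 := fun l hl => h l (by simp [hl])
    cases b
    · simp only [runs_false, h1, ih h2]
    · simp only [runs_true, h1, ih h2]

theorem runs_const {c : α → R} {w : List (α × Bool)} {x : R} (h : ∀ l ∈ w, c l.1 = x) {y : R}
    (hr : Runs c w x y) : x = y := by
  induction w with
  | nil => simpa using hr
  | cons a w ih =>
    obtain ⟨i, b⟩ := a
    have h1 : c i = x := h (i, b) (by simp)
    have h2 : ∀ l ∈ w, c l.1 = x := fun l hl => h l (by simp [hl])
    cases b
    · rw [runs_false, h1, show 2 * x - x = x by ring] at hr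
      exact ih h2 hr
    · exact ih h2 hr.2

theorem runs_reverse (c : α → R) (w : List (α × Bool)) (x y : R) :
    Runs c w.reverse x y ↔ Runs c w y x := by
  induction w generalizing x y with
  | nil => simp [eq_comm]
  | cons a w ih =>
    obtain ⟨i, b⟩ := a
    rw [List.reverse_cons, runs_append]
    cases b
    · simp only [ih, runs_false, runs_nil]
      constructor
      · rintro ⟨z, hz, rfl⟩
        rwa [show 2 * c i - (2 * c i - z) = z by ring]
      · intro h
        exact ⟨_, h, by ring⟩
    · simp only [ih, runs_true, runs_nil]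
      constructor
      · rintro ⟨z, hz, h, rfl⟩
        exact ⟨h, hz⟩
      · rintro ⟨h, h2⟩
        exact ⟨y, h2, h, rfl⟩

theorem runs_map {β : Type} (f : α → β) (c : β → R) (w : List (α × Bool)) (x y : R) :
    Runs c (w.map fun l => (f l.1, l.2)) x y ↔ Runs (c ∘ f) w x y := by
  induction w generalizing x with
  | nil => simp
  | cons a w ih =>
    obtain ⟨i, b⟩ := a
    cases b
    · simp only [List.map_cons, runs_false, ih, Function.comp]
    · simp only [List.map_cons, runs_true, ih, Function.comp]

variable (R) in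
/-- The Gauss word has a Fox colouring with values in `R` that is not constant. -/
def Colorable (w : List (α × Bool)) : Prop :=
  ∃ (x : R) (c : α → R), Runs c w x x ∧ ∃ l ∈ w, c l.1 ≠ x

theorem colorable_rotate {u v : List (α × Bool)} (h : Colorable R (u ++ v)) :
    Colorable R (v ++ u) := by
  obtain ⟨x, c, hr, l, hl, hlx⟩ := h
  obtain ⟨z, h1, h2⟩ := (runs_append _ _ _ _ _).1 hr
  refine ⟨z, c, (runs_append _ _ _ _ _).2 ⟨x, h2, h1⟩, ?_⟩
  by_contra hcon
  push Not at hcon
  have hz : z = x := runs_const (w := v) (fun l hl => hcon l (by simp [hl])) h2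
  subst hz
  exact hlx (hcon l (by
    rw [List.mem_append] at hl ⊢
    exact hl.symm))

theorem colorable_reverse {w : List (α × Bool)} (h : Colorable R w) :
    Colorable R w.reverse := by
  obtain ⟨x, c, hr, l, hl, hlx⟩ := h
  exact ⟨x, c, (runs_reverse _ _ _ _).2 hr, l, by simpa using hl, hlx⟩

theorem colorable_relabel (f : α ≃ α) {w : List (α × Bool)} :
    Colorable R (w.map fun x => (f x.1, x.2)) ↔ Colorable R w := by
  constructor
  · rintro ⟨x, c, hr, l, hl, hlx⟩
    obtain ⟨l', hl', rfl⟩ := List.mem_map.1 hl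
    exact ⟨x, c ∘ f, (runs_map _ _ _ _ _).1 hr, l', hl', hlx⟩
  · rintro ⟨x, c, hr, l, hl, hlx⟩
    refine ⟨x, c ∘ f.symm, (runs_map _ _ _ _ _).2 ?_, (f l.1, l.2),
      List.mem_map.2 ⟨l, hl, rfl⟩, by simpa using hlx⟩
    have : (c ∘ f.symm) ∘ f = c := by ext; simp
    rwa [this]

open Classical in
/-- Changing the colour of one label does not matter for a word without it. -/
theorem runs_update {c : α → R} {w : List (α × Bool)} {i : α} (h : ∀ l ∈ w, l.1 ≠ i) (y : R)
    (x z : R) : Runs (Function.update c i y) w x z ↔ Runs c w x z :=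
  runs_congr (fun l hl => by simp [Function.update_of_ne (h l hl)]) x z

theorem colorable_one (u v : List (α × Bool)) (i : α) (b : Bool)
    (hi : ∀ x ∈ u ++ v, x.1 ≠ i) :
    Colorable R (u ++ v) ↔ Colorable R (u ++ [(i, b), (i, !b)] ++ v) := by
  classical
  have hu : ∀ x ∈ u, x.1 ≠ i := fun x hx => hi x (by simp [hx])
  have hv : ∀ x ∈ v, x.1 ≠ i := fun x hx => hi x (by simp [hx])
  have key : ∀ (c : α → R) (y z : R), Runs c [(i, b), (i, !b)] y z ↔ c i = y ∧ z = y := by
    intro c y z
    cases b
    · simp only [Bool.not_false, runs_false, runs_true, runs_nil]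
      constructor
      · rintro ⟨h, h2⟩
        have h3 : c i = y := by linear_combination h
        exact ⟨h3, by rw [← h2, h3]; ring⟩
      · rintro ⟨rfl, rfl⟩
        exact ⟨by ring, by ring⟩
    · simp only [Bool.not_true, runs_false, runs_true, runs_nil]
      constructor
      · rintro ⟨h, h2⟩
        exact ⟨h.symm, by rw [← h2, ← h]; ring⟩
      · rintro ⟨rfl, rfl⟩
        exact ⟨rfl, by ring⟩
  constructor
  · rintro ⟨x, c, hr, l, hl, hlx⟩
    obtain ⟨z, h1, h2⟩ := (runs_append _ _ _ _ _).1 hr
    refine ⟨x, Function.update c i z, ?_, l, ?_, ?_⟩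
    · rw [List.append_assoc, runs_append]
      refine ⟨z, (runs_update hu _ _ _).2 h1, ?_⟩
      rw [runs_append]
      refine ⟨z, ?_, (runs_update hv _ _ _).2 h2⟩
      rw [key]
      simp
    · simp only [List.mem_append] at hl ⊢
      tauto
    · rw [Function.update_of_ne (hi l hl)]
      exact hlx
  · rintro ⟨x, c, hr, l, hl, hlx⟩
    rw [List.append_assoc, runs_append] at hr
    obtain ⟨z, h1, h2⟩ := hr
    rw [runs_append] at h2
    obtain ⟨z', h3, h4⟩ := h2
    rw [key] at h3
    obtain ⟨h3, rfl⟩ := h3
    refine ⟨x, c, (runs_append _ _ _ _ _).2 ⟨z', h1, h4⟩, ?_⟩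
    by_contra hcon
    push Not at hcon
    have hz : x = z' := runs_const (w := u) (fun l hl => hcon l (by simp [hl])) h1
    subst hz
    simp only [List.mem_append, List.mem_cons, List.not_mem_nil, or_false] at hl
    rcases hl with (hl | rfl | rfl) | hl
    · exact hlx (hcon l (by simp [hl]))
    · exact hlx h3
    · exact hlx h3
    · exact hlx (hcon l (by simp [hl]))

theorem colorable_two (u v w Y : List (α × Bool)) (i j : α) (hij : i ≠ j)
    (hY : Y = [(i, false), (j, false)] ∨ Y = [(j, false), (i, false)])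
    (hi : ∀ x ∈ u ++ v ++ w, x.1 ≠ i) (hj : ∀ x ∈ u ++ v ++ w, x.1 ≠ j) :
    Colorable R (u ++ v ++ w) ↔
      Colorable R (u ++ [(i, true), (j, true)] ++ v ++ Y ++ w) := by
  classical
  have key1 : ∀ (c : α → R) (y z : R),
      Runs c [(i, true), (j, true)] y z ↔ c i = y ∧ c j = y ∧ z = y := by
    intro c y z
    simp only [runs_true, runs_nil]
    tauto
  have key2 : ∀ (c : α → R) (y z : R), c i = c j → (Runs c Y y z ↔ z = y) := by
    intro c y z hc
    rcases hY with rfl | rfl
    · simp only [runs_false, runs_nil, hc]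
      constructor
      · rintro rfl; ring
      · rintro rfl; ring
    · simp only [runs_false, runs_nil, hc]
      constructor
      · rintro rfl; ring
      · rintro rfl; ring
  constructor
  · rintro ⟨x, c, hr, l, hl, hlx⟩
    obtain ⟨z, h1, h2⟩ := (runs_append _ _ _ _ _).1 hr
    obtain ⟨z', h0, h1⟩ := (runs_append _ _ _ _ _).1 h1
    set c' := Function.update (Function.update c i z') j z' with hc'
    have hci : c' i = z' := by
      rw [hc', Function.update_of_ne hij, Function.update_self]
    have hcj : c' j = z' := by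
      rw [hc', Function.update_self]
    have hcc : ∀ l ∈ u ++ v ++ w, c' l.1 = c l.1 := by
      intro l hl
      rw [hc', Function.update_of_ne (hj l hl), Function.update_of_ne (hi l hl)]
    refine ⟨x, c', ?_, l, ?_, ?_⟩
    · rw [runs_append]
      refine ⟨z, ?_, (runs_congr (fun l hl => hcc l (by simp [hl])) _ _).2 h2⟩
      rw [runs_append]
      refine ⟨z, ?_, (key2 c' _ _ (by rw [hci, hcj])).2 rfl⟩
      rw [runs_append]
      refine ⟨z', ?_, (runs_congr (fun l hl => hcc l (by simp [hl])) _ _).2 h1⟩
      rw [runs_append]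
      exact ⟨z', (runs_congr (fun l hl => hcc l (by simp [hl])) _ _).2 h0,
        (key1 _ _ _).2 ⟨hci, hcj, rfl⟩⟩
    · simp only [List.mem_append] at hl ⊢
      tauto
    · rw [hcc l hl]
      exact hlx
  · rintro ⟨x, c, hr, l, hl, hlx⟩
    rw [runs_append] at hr
    obtain ⟨z, h1, h2⟩ := hr
    rw [runs_append] at h1
    obtain ⟨z1, h1, h3⟩ := h1
    rw [runs_append] at h1
    obtain ⟨z2, h1, h4⟩ := h1
    rw [runs_append] at h1
    obtain ⟨z3, h1, h5⟩ := h1
    obtain ⟨hci, hcj, rfl⟩ := (key1 _ _ _).1 h5
    obtain rfl := (key2 _ _ _ (by rw [hci, hcj])).1 h3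
    refine ⟨x, c, ?_, ?_⟩
    · rw [runs_append]
      refine ⟨z, ?_, h2⟩
      rw [runs_append]
      exact ⟨_, h1, h4⟩
    · by_contra hcon
      push Not at hcon
      have hz := runs_const (w := u) (fun l hl => hcon l (by simp [hl])) h1
      subst hz
      have hl' : l ∈ u ++ v ++ w ∨ l.1 = i ∨ l.1 = j := by
        simp only [List.mem_append, List.mem_cons, List.not_mem_nil, or_false] at hl ⊢
        rcases hY with rfl | rfl
        · simp only [List.mem_cons, List.not_mem_nil, or_false] at hl
          rcases hl with (((hl | rfl | rfl) | hl) | rfl | rfl) | hl <;> simp [*]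
        · simp only [List.mem_cons, List.not_mem_nil, or_false] at hl
          rcases hl with (((hl | rfl | rfl) | hl) | rfl | rfl) | hl <;> simp [*]
      rcases hl' with hl' | hl' | hl'
      · exact hlx (hcon l hl')
      · exact hlx (by rw [hl', hci])
      · exact hlx (by rw [hl', hcj])

/-- The middle strand of a third Reidemeister move. -/
def IsMid (i k : α) (Y : List (α × Bool)) : Prop :=
  Y = [(i, false), (k, true)] ∨ Y = [(k, true), (i, false)]

/-- The bottom strand of a third Reidemeister move. -/
def IsBot (j k : α) (Y : List (α × Bool)) : Prop :=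
  Y = [(j, false), (k, false)] ∨ Y = [(k, false), (j, false)]

theorem IsMid.reverse {i k : α} {Y : List (α × Bool)} (h : IsMid i k Y) :
    IsMid i k Y.reverse := by
  rcases h with rfl | rfl
  · right; rfl
  · left; rfl

theorem IsBot.reverse {i k : α} {Y : List (α × Bool)} (h : IsBot i k Y) :
    IsBot i k Y.reverse := by
  rcases h with rfl | rfl
  · right; rfl
  · left; rfl

theorem IsMid.runs {i k : α} {Y : List (α × Bool)} (h : IsMid i k Y) {c c' : α → R}
    (hi : c' i = c i) (hk : c' k = 2 * c i - c k) {x y : R} (hr : Runs c Y x y) :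
    Runs c' Y.reverse x y := by
  rcases h with rfl | rfl
  · simp only [runs_false, runs_true, runs_nil] at hr
    obtain ⟨h1, rfl⟩ := hr
    simp only [List.reverse_cons, List.reverse_nil, List.nil_append, List.cons_append,
      runs_false, runs_true, runs_nil]
    exact ⟨by rw [hk, ← h1]; ring, by rw [hi]⟩
  · simp only [runs_false, runs_true, runs_nil] at hr
    obtain ⟨rfl, rfl⟩ := hr
    simp only [List.reverse_cons, List.reverse_nil, List.nil_append, List.cons_append,
      runs_false, runs_true, runs_nil]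
    exact ⟨by rw [hk, hi], by rw [hi]⟩

theorem IsBot.runs {i j k : α} {Y : List (α × Bool)} (h : IsBot j k Y) {c c' : α → R}
    (hij : c i = c j) (hj : c' j = c j) (hk : c' k = 2 * c i - c k) {x y : R}
    (hr : Runs c Y x y) : Runs c' Y.reverse x y := by
  rcases h with rfl | rfl
  · simp only [runs_false, runs_nil] at hr
    simp only [List.reverse_cons, List.reverse_nil, List.nil_append, List.cons_append,
      runs_false, runs_nil]
    rw [hk, hj, ← hr, hij]
    ring
  · simp only [runs_false, runs_nil] at hr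
    simp only [List.reverse_cons, List.reverse_nil, List.nil_append, List.cons_append,
      runs_false, runs_nil]
    rw [hk, hj, ← hr, hij]
    ring

theorem colorable_three_aux {u v w t X Y Z : List (α × Bool)} {i j k : α}
    (hik : i ≠ k) (hjk : j ≠ k)
    (hX : X = [(i, true), (j, true)] ∨ X = [(j, true), (i, true)])
    (hYZ : (IsMid i k Y ∧ IsBot j k Z) ∨ (IsMid i k Z ∧ IsBot j k Y))
    (hk : ∀ x ∈ u ++ v ++ w ++ t, x.1 ≠ k)
    (h : Colorable R (u ++ X ++ v ++ Y ++ w ++ Z ++ t)) :
    Colorable R (u ++ X.reverse ++ v ++ Y.reverse ++ w ++ Z.reverse ++ t) := by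
  classical
  obtain ⟨x, c, hr, l, hl, hlx⟩ := h
  simp only [runs_append] at hr
  obtain ⟨z1, ⟨z2, ⟨z3, ⟨z4, ⟨z5, ⟨z6, hu, hXr⟩, hv⟩, hYr⟩, hw⟩, hZr⟩, ht⟩ := hr
  have hXr' : c i = z6 ∧ c j = z6 ∧ z5 = z6 := by
    rcases hX with rfl | rfl
    · simp only [runs_true, runs_nil] at hXr
      obtain ⟨h1, h2, h3⟩ := hXr
      exact ⟨h1.symm, h2.symm, h3.symm⟩
    · simp only [runs_true, runs_nil] at hXr
      obtain ⟨h1, h2, h3⟩ := hXr
      exact ⟨h2.symm, h1.symm, h3.symm⟩
  obtain ⟨hci, hcj, rfl⟩ := hXr'
  have hij : c i = c j := by rw [hci, hcj]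
  set c' := Function.update c k (2 * c i - c k) with hc'
  have hcc : ∀ l ∈ u ++ v ++ w ++ t, c' l.1 = c l.1 := fun l hl => by
    rw [hc', Function.update_of_ne (hk l hl)]
  have hi' : c' i = c i := by rw [hc', Function.update_of_ne hik]
  have hj' : c' j = c j := by rw [hc', Function.update_of_ne hjk]
  have hk' : c' k = 2 * c i - c k := by rw [hc', Function.update_self]
  have hY2 : Runs c' Y.reverse z4 z3 := by
    rcases hYZ with h | h
    · exact h.1.runs hi' hk' hYr
    · exact h.2.runs hij hj' hk' hYr
  have hZ2 : Runs c' Z.reverse z2 z1 := by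
    rcases hYZ with h | h
    · exact h.2.runs hij hj' hk' hZr
    · exact h.1.runs hi' hk' hZr
  refine ⟨x, c', ?_, ?_⟩
  · simp only [runs_append]
    refine ⟨z1, ⟨z2, ⟨z3, ⟨z4, ⟨z5, ⟨z5, ?_, ?_⟩, ?_⟩, hY2⟩, ?_⟩, hZ2⟩, ?_⟩
    · exact (runs_congr (fun l hl => hcc l (by simp [hl])) _ _).2 hu
    · rcases hX with rfl | rfl
      · simp [hi', hj', hci, hcj]
      · simp [hi', hj', hci, hcj]
    · exact (runs_congr (fun l hl => hcc l (by simp [hl])) _ _).2 hv
    · exact (runs_congr (fun l hl => hcc l (by simp [hl])) _ _).2 hw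
    · exact (runs_congr (fun l hl => hcc l (by simp [hl])) _ _).2 ht
  · -- some label has a colour different from `x`
    by_contra hcon
    push Not at hcon
    have hXm : ∀ l ∈ X, c' l.1 = x := fun l hl => hcon l (by simp [hl])
    have hix : c i = x := by
      rw [← hi']
      rcases hX with rfl | rfl
      · exact hXm (i, true) (by simp)
      · exact hXm (i, true) (by simp)
    have hkx : c k = x := by
      have h1 : c' k = x := by
        rcases hYZ with ⟨rfl | rfl, -⟩ | ⟨rfl | rfl, -⟩
        · exact hcon (k, true) (by simp)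
        · exact hcon (k, true) (by simp)
        · exact hcon (k, true) (by simp)
        · exact hcon (k, true) (by simp)
      rw [hk', hix] at h1
      linear_combination -h1
    have : c l.1 = x := by
      by_cases hlk : l.1 = k
      · rw [hlk, hkx]
      · have h2 : c' l.1 = c l.1 := by rw [hc', Function.update_of_ne hlk]
        rw [← h2]
        apply hcon l
        simp only [List.mem_append, List.mem_reverse] at hl ⊢
        exact hl
    exact hlx this

theorem colorable_three {u v w t X Y Z : List (α × Bool)} {i j k : α}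
    (hik : i ≠ k) (hjk : j ≠ k)
    (hX : X = [(i, true), (j, true)] ∨ X = [(j, true), (i, true)])
    (hYZ : (IsMid i k Y ∧ IsBot j k Z) ∨ (IsMid i k Z ∧ IsBot j k Y))
    (hk : ∀ x ∈ u ++ v ++ w ++ t, x.1 ≠ k) :
    Colorable R (u ++ X ++ v ++ Y ++ w ++ Z ++ t) ↔
    Colorable R (u ++ X.reverse ++ v ++ Y.reverse ++ w ++ Z.reverse ++ t) := by
  refine ⟨colorable_three_aux hik hjk hX hYZ hk, fun h => ?_⟩
  have h2 := colorable_three_aux (X := X.reverse) (Y := Y.reverse) (Z := Z.reverse)
    hik hjk ?_ ?_ hk h
  · simpa using h2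
  · rcases hX with rfl | rfl
    · right; rfl
    · left; rfl
  · rcases hYZ with h | h
    · exact Or.inl ⟨h.1.reverse, h.2.reverse⟩
    · exact Or.inr ⟨h.1.reverse, h.2.reverse⟩

variable (R) in
/-- Colourability is invariant under Reidemeister moves. -/
theorem colorable_move {w w' : List (α × Bool)} (h : Move w w') :
    Colorable R w ↔ Colorable R w' := by
  cases h with
  | rotate u v => exact ⟨colorable_rotate, colorable_rotate⟩
  | reverse w =>
    exact ⟨colorable_reverse, fun h => by simpa using colorable_reverse h⟩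
  | relabel f w => exact (colorable_relabel f).symm
  | one u v i b hi => exact colorable_one u v i b hi
  | two u v w Y i j hij hY hi hj => exact colorable_two u v w Y i j hij hY hi hj
  | three u v w t X Y Z i j k hij hik hjk hX hYZ hk =>
    exact colorable_three hik hjk hX hYZ hk

variable (R) in
theorem colorable_requiv {w w' : List (α × Bool)} (h : REquiv w w') :
    Colorable R w ↔ Colorable R w' := by
  induction h with
  | rel x y h => exact colorable_move R h
  | refl x => rfl
  | symm x y _ ih => exact ih.symm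
  | trans x y z _ _ ih1 ih2 => exact ih1.trans ih2

end Pool.Agent.Lib.MP_d1968e_gt
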