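import Pool.Agent.Lib.MP_d1968e_gt.Defs

/-!
# A mosaic of size at least three with triple-crossing interior is not a knot
-/

namespace Pool.Agent.Lib.MP_d1968e_gt

theorem hexDist_le_iff (p : Pos) (n : ℤ) : hexDist p ≤ n ↔
    -n ≤ p.1 ∧ p.1 ≤ n ∧ -n ≤ p.2 ∧ p.2 ≤ n ∧ -n ≤ p.1 + p.2 ∧ p.1 + p.2 ≤ n := by
  unfold hexDist
  rw [max_le_iff, max_le_iff, abs_le, abs_le, abs_le]
  tauto

theorem opp_opp (x : Pos × Fin 6) : Mosaic.opp (Mosaic.opp x) = x := by
  obtain ⟨⟨a, b⟩, k⟩ := x
  fin_cases k <;> simp [Mosaic.opp, dir]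

/-- Whether the edge `k` is used, as a number modulo two. -/
def Tile.num (T : Tile) (k : Fin 6) : ZMod 2 := if T.conn k = k then 0 else 1

theorem Tile.num_pos {T : Tile} {k : Fin 6} (h : T.conn k = k) : T.num k = 0 := if_pos h

theorem Tile.num_neg {T : Tile} {k : Fin 6} (h : T.conn k ≠ k) : T.num k = 1 := if_neg h

theorem Tile.sum_used (T : Tile) : ∑ k : Fin 6, T.num k = 0 := by
  unfold Tile.num
  refine Finset.sum_involution (fun k _ => T.conn k) ?_ ?_ ?_ ?_
  · intro k _
    by_cases h : T.conn k = k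
    · simp [h]
    · have h2 : ¬ T.conn (T.conn k) = T.conn k := fun h3 => h (by
        rw [T.conn_conn] at h3; exact h3.symm)
      simp only [h, h2, if_false]
      decide
  · intro k _ h h2
    exact h (by simp [h2])
  · intro k _
    exact Finset.mem_univ _
  · intro k _
    exact T.conn_conn k

theorem Tile.sum_shift (T : Tile) (s : Fin 6) :
    T.num s + T.num (s + 1) + T.num (s + 2) + T.num (s + 3) + T.num (s + 4) + T.num (s + 5)
      = 0 := by
  have hsum := T.sum_used
  rw [← Equiv.sum_comp (Equiv.addLeft s), Fin.sum_univ_six] at hsum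
  simpa using hsum

namespace Mosaic

variable {r : ℕ} {M : Mosaic r}

theorem used_opp (hS : M.SuitablyConnected) (x : Pos × Fin 6) : M.Used (opp x) ↔ M.Used x :=
  ⟨fun h => by simpa [opp_opp] using hS _ h, hS x⟩

theorem used_mate (x : Pos × Fin 6) (h : M.Used x) : M.Used (M.mate x) := by
  unfold Used mate at *
  simp only
  rw [(M.tile x.1).conn_conn]
  exact h.symm

theorem mate_mate (x : Pos × Fin 6) : M.mate (M.mate x) = x := by
  unfold mate
  simp only [(M.tile x.1).conn_conn]

theorem not_used_out {x : Pos × Fin 6} (h : ¬ hexDist x.1 ≤ r - 1) : ¬ M.Used x := by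
  unfold Used
  push Not
  exact M.empty_of_le x.1 (by omega) x.2

theorem used_in (hT : M.AllTriple) {x : Pos × Fin 6} (h : hexDist x.1 ≤ r - 2) : M.Used x := by
  unfold Used
  rw [hT x.1 (by omega) x.2]
  generalize x.2 = k
  revert k
  decide

/-- The `j`-th tile on the side `s` of the board. -/
def sideP (r : ℕ) (s : Fin 6) (j : ℤ) : Pos :=
  (((r : ℤ) - 1) * (dir s).1 + j * (dir (s + 2)).1,
    ((r : ℤ) - 1) * (dir s).2 + j * (dir (s + 2)).2)

theorem side_used (hS : M.SuitablyConnected) (hT : M.AllTriple) (s : Fin 6) (j : ℤ)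
    (h1 : 1 ≤ j) (h2 : j + 2 ≤ r) :
    ¬ M.Used (sideP r s j, s) ∧ ¬ M.Used (sideP r s j, s + 1) ∧
      M.Used (sideP r s j, s + 3) ∧ M.Used (sideP r s j, s + 4) := by
  refine ⟨?_, ?_, ?_, ?_⟩
  · rw [← used_opp hS]
    apply not_used_out
    rw [hexDist_le_iff]
    fin_cases s <;> simp [opp, sideP, dir] <;> omega
  · rw [← used_opp hS]
    apply not_used_out
    rw [hexDist_le_iff]
    fin_cases s <;> simp [opp, sideP, dir] <;> omega
  · rw [← used_opp hS]
    apply used_in hT
    rw [hexDist_le_iff]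
    fin_cases s <;> simp [opp, sideP, dir] <;> omega
  · rw [← used_opp hS]
    apply used_in hT
    rw [hexDist_le_iff]
    fin_cases s <;> simp [opp, sideP, dir] <;> omega

theorem corner_used (hS : M.SuitablyConnected) (hT : M.AllTriple) (hr : 2 ≤ r) (s : Fin 6) :
    ¬ M.Used (sideP r s 0, s) ∧ ¬ M.Used (sideP r s 0, s + 1) ∧
      ¬ M.Used (sideP r s 0, s + 5) ∧ M.Used (sideP r s 0, s + 3) := by
  refine ⟨?_, ?_, ?_, ?_⟩
  · rw [← used_opp hS]
    apply not_used_out
    rw [hexDist_le_iff]
    fin_cases s <;> simp [opp, sideP, dir] <;> omega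
  · rw [← used_opp hS]
    apply not_used_out
    rw [hexDist_le_iff]
    fin_cases s <;> simp [opp, sideP, dir] <;> omega
  · rw [← used_opp hS]
    apply not_used_out
    rw [hexDist_le_iff]
    fin_cases s <;> simp [opp, sideP, dir] <;> omega
  · rw [← used_opp hS]
    apply used_in hT
    rw [hexDist_le_iff]
    fin_cases s <;> simp [opp, sideP, dir] <;> omega

theorem side_lateral (hS : M.SuitablyConnected) (hT : M.AllTriple) (s : Fin 6) (j : ℤ)
    (h1 : 1 ≤ j) (h2 : j + 2 ≤ r) :
    M.Used (sideP r s j, s + 2) ↔ M.Used (sideP r s j, s + 5) := by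
  obtain ⟨a0, a1, a3, a4⟩ := side_used hS hT s j h1 h2
  have hsum := (M.tile (sideP r s j)).sum_shift s
  unfold Used at *
  simp only [not_not] at a0 a1 a3 a4
  rw [Tile.num_pos a0, Tile.num_pos a1, Tile.num_neg a3, Tile.num_neg a4] at hsum
  simp only
  by_cases h2 : (M.tile (sideP r s j)).conn (s + 2) = s + 2 <;>
  by_cases h5 : (M.tile (sideP r s j)).conn (s + 5) = s + 5 <;>
  simp [h2, h5, Tile.num] at hsum ⊢ <;> revert hsum <;> decide

theorem corner_lateral (hS : M.SuitablyConnected) (hT : M.AllTriple) (hr : 2 ≤ r)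
    (s : Fin 6) :
    M.Used (sideP r s 0, s + 2) ↔ ¬ M.Used (sideP r s 0, s + 4) := by
  obtain ⟨a0, a1, a5, a3⟩ := corner_used hS hT hr s
  have hsum := (M.tile (sideP r s 0)).sum_shift s
  unfold Used at *
  simp only [not_not] at a0 a1 a5 a3
  rw [Tile.num_pos a0, Tile.num_pos a1, Tile.num_pos a5, Tile.num_neg a3] at hsum
  simp only
  by_cases h2 : (M.tile (sideP r s 0)).conn (s + 2) = s + 2 <;>
  by_cases h4 : (M.tile (sideP r s 0)).conn (s + 4) = s + 4 <;>
  simp [h2, h4, Tile.num] at hsum ⊢ <;> revert hsum <;> decide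

theorem opp_side (r : ℕ) (s : Fin 6) (j : ℤ) :
    opp (sideP r s j, s + 2) = (sideP r s (j + 1), s + 5) := by
  fin_cases s <;> simp [opp, sideP, dir] <;> ring_nf <;> simp

theorem side_corner (r : ℕ) (s : Fin 6) : sideP r s (r - 1) = sideP r (s + 1) 0 := by
  fin_cases s <;> simp [sideP, dir]

/-- Along one side, all or none of the common edges of boundary tiles are used. -/
theorem side_const (hS : M.SuitablyConnected) (hT : M.AllTriple) (s : Fin 6) (j : ℕ)
    (h2 : j + 2 ≤ r) :
    M.Used (sideP r s j, s + 2) ↔ M.Used (sideP r s 0, s + 2) := by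
  induction j with
  | zero => simp
  | succ j ih =>
    rw [← ih (by omega), side_lateral hS hT s _ (by push_cast; omega) (by push_cast; omega)]
    push_cast
    rw [← opp_side, used_opp hS]

theorem side_alternate (hS : M.SuitablyConnected) (hT : M.AllTriple) (hr : 2 ≤ r)
    (s : Fin 6) :
    M.Used (sideP r (s + 1) 0, s + 1 + 2) ↔ ¬ M.Used (sideP r s 0, s + 2) := by
  rw [corner_lateral hS hT hr]
  have h1 := side_const hS hT s (r - 2) (by omega)
  rw [← h1, ← used_opp hS (sideP r s ((r - 2 : ℕ) : ℤ), s + 2), opp_side]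
  have h2 : ((r - 2 : ℕ) : ℤ) + 1 = r - 1 := by omega
  rw [h2, side_corner, show s + 1 + 4 = s + 5 by rw [add_assoc]; rfl]

/-- Parity of an edge number, as a sign. -/
def sgn (s : Fin 6) : ℤ := if s.val % 2 = 0 then 1 else -1

/-- The signed distance from the centre of the line through `x.1` in the direction `x.2`, up
to a sign that makes it invariant under `opp` and under going straight. -/
def gval (x : Pos × Fin 6) : ℤ :=
  sgn x.2 * ((dir x.2).1 * x.1.2 - (dir x.2).2 * x.1.1)

theorem gval_opp (x : Pos × Fin 6) : gval (opp x) = gval x := by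
  obtain ⟨⟨a, b⟩, k⟩ := x
  fin_cases k <;> simp [opp, gval, sgn, dir] <;> ring

theorem gval_add_three (p : Pos) (k : Fin 6) : gval (p, k + 3) = gval (p, k) := by
  obtain ⟨a, b⟩ := p
  fin_cases k <;> simp [gval, sgn, dir] <;> ring

theorem gval_side_two (r : ℕ) (s : Fin 6) (j : ℤ) :
    gval (sideP r s j, s + 2) = -(sgn s * (r - 1)) := by
  fin_cases s <;> simp [gval, sgn, dir, sideP]

theorem gval_side_three (r : ℕ) (s : Fin 6) (j : ℤ) :
    gval (sideP r s j, s + 3) = sgn s * j := by
  fin_cases s <;> simp [gval, sgn, dir, sideP]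

theorem gval_side_four (r : ℕ) (s : Fin 6) (j : ℤ) :
    gval (sideP r s j, s + 4) = sgn s * (r - 1 - j) := by
  fin_cases s <;> simp [gval, sgn, dir, sideP] <;> ring

theorem gval_side_five (r : ℕ) (s : Fin 6) (j : ℤ) :
    gval (sideP r s j, s + 5) = -(sgn s * (r - 1)) := by
  fin_cases s <;> simp [gval, sgn, dir, sideP] <;> ring

theorem exists_side {p : Pos} (hr : 2 ≤ r) (hp : hexDist p ≤ r - 1)
    (hp2 : ¬ hexDist p ≤ r - 2) :
    ∃ (s : Fin 6) (j : ℕ), j + 2 ≤ r ∧ p = sideP r s j := by
  obtain ⟨a, b⟩ := p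
  rw [hexDist_le_iff] at hp hp2
  simp only at hp hp2
  by_cases h0 : a + b = r - 1 ∧ 0 < a ∧ 0 ≤ b
  · refine ⟨0, b.toNat, by omega, ?_⟩
    simp [sideP, dir]
    omega
  by_cases h1 : b = r - 1 ∧ -(r - 1) < a ∧ a ≤ 0
  · refine ⟨1, (-a).toNat, by omega, ?_⟩
    simp [sideP, dir]
    omega
  by_cases h2 : a = -(r - 1) ∧ 0 < b ∧ b ≤ r - 1
  · refine ⟨2, (r - 1 - b).toNat, by omega, ?_⟩
    simp [sideP, dir]
    omega
  by_cases h3 : a + b = -(r - 1) ∧ a < 0 ∧ b ≤ 0
  · refine ⟨3, (-b).toNat, by omega, ?_⟩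
    simp [sideP, dir]
    omega
  by_cases h4 : b = -(r - 1) ∧ 0 ≤ a ∧ a < r - 1
  · refine ⟨4, a.toNat, by omega, ?_⟩
    simp [sideP, dir]
    omega
  by_cases h5 : a = r - 1 ∧ -(r - 1) ≤ b ∧ b < 0
  · refine ⟨5, (b + (r - 1)).toNat, by omega, ?_⟩
    simp [sideP, dir]
    omega
  omega

theorem shift_cases (s k : Fin 6) :
    k = s ∨ k = s + 1 ∨ k = s + 2 ∨ k = s + 3 ∨ k = s + 4 ∨ k = s + 5 := by
  revert s k
  decide

/-- The points on the lines that join the unused sides, which have `sgn s = σ`. -/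
def InS (M : Mosaic r) (σ : ℤ) (x : Pos × Fin 6) : Prop :=
  M.Used x ∧ 0 < σ * gval x ∧ σ * gval x < r - 1

theorem inS_mate (hS : M.SuitablyConnected) (hT : M.AllTriple) (hr : 2 ≤ r) {σ : ℤ}
    (hσ : σ = 1 ∨ σ = -1)
    (hU : ∀ s, sgn s = σ → ¬ M.Used (sideP r s 0, s + 2))
    {x : Pos × Fin 6} (hx : InS M σ x) : InS M σ (M.mate x) := by
  refine ⟨used_mate x hx.1, ?_⟩
  obtain ⟨hu, h1, h2⟩ := hx
  have hu' := used_mate x hu
  have hd : hexDist x.1 ≤ r - 1 := by
    by_contra hcon
    exact not_used_out hcon hu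
  by_cases hd2 : hexDist x.1 ≤ r - 2
  · have : M.mate x = (x.1, x.2 + 3) := by
      unfold mate
      rw [hT x.1 (by omega)]
    rw [this, gval_add_three]
    exact ⟨h1, h2⟩
  · obtain ⟨s, j, hj, hp⟩ := exists_side hr hd hd2
    obtain ⟨p, k⟩ := x
    simp only at hp
    subst hp
    have hss : sgn s = 1 ∨ sgn s = -1 := by
      unfold sgn
      split_ifs <;> simp
    rcases Nat.eq_zero_or_pos j with rfl | hj0
    · exfalso
      obtain ⟨a0, a1, a5, a3⟩ := corner_used hS hT hr s
      simp only [Nat.cast_zero] at *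
      rcases shift_cases s k with h | h | h | h | h | h
      · exact a0 (h ▸ hu)
      · exact a1 (h ▸ hu)
      · subst h
        rw [gval_side_two] at h1 h2
        rcases hσ with rfl | rfl <;> rcases hss with h | h <;> rw [h] at h1 h2 <;> omega
      · subst h
        rw [gval_side_three] at h1 h2
        rcases hσ with rfl | rfl <;> rcases hss with h | h <;> rw [h] at h1 h2 <;> omega
      · subst h
        rw [gval_side_four] at h1 h2
        rcases hσ with rfl | rfl <;> rcases hss with h | h <;> rw [h] at h1 h2 <;> omega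
      · exact a5 (h ▸ hu)
    · obtain ⟨a0, a1, a3, a4⟩ := side_used hS hT s j (by omega) (by omega)
      by_cases hsσ : sgn s = σ
      · have b2 : ¬ M.Used (sideP r s j, s + 2) := by
          rw [side_const hS hT s j hj]
          exact hU s hsσ
        have b5 : ¬ M.Used (sideP r s j, s + 5) := by
          rw [← side_lateral hS hT s j (by omega) (by omega)]
          exact b2
        have hmate : ∀ l : Fin 6, M.Used (sideP r s j, l) → l = s + 3 ∨ l = s + 4 := by
          intro l hl
          rcases shift_cases s l with h | h | h | h | h | h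
          · exact absurd (h ▸ hl) a0
          · exact absurd (h ▸ hl) a1
          · exact absurd (h ▸ hl) b2
          · exact Or.inl h
          · exact Or.inr h
          · exact absurd (h ▸ hl) b5
        have hm : M.mate (sideP r s j, k) = (sideP r s j, s + 3) ∨
            M.mate (sideP r s j, k) = (sideP r s j, s + 4) := by
          rcases hmate _ hu' with h | h
          · left
            exact Prod.ext rfl h
          · right
            exact Prod.ext rfl h
        rcases hm with h | h
        · rw [h, gval_side_three, hsσ, ← mul_assoc]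
          rcases hσ with rfl | rfl <;> omega
        · rw [h, gval_side_four, hsσ, ← mul_assoc]
          rcases hσ with rfl | rfl <;> omega
      · exfalso
        have hneg : sgn s = -σ := by
          rcases hσ with rfl | rfl <;> rcases hss with h | h <;> simp_all
        rcases shift_cases s k with h | h | h | h | h | h
        · exact a0 (h ▸ hu)
        · exact a1 (h ▸ hu)
        · subst h
          rw [gval_side_two, hneg] at h1 h2
          rcases hσ with rfl | rfl <;> omega
        · subst h
          rw [gval_side_three, hneg] at h1 h2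
          rcases hσ with rfl | rfl <;> omega
        · subst h
          rw [gval_side_four, hneg] at h1 h2
          rcases hσ with rfl | rfl <;> omega
        · subst h
          rw [gval_side_five, hneg] at h1 h2
          rcases hσ with rfl | rfl <;> omega

theorem inS_opp (hS : M.SuitablyConnected) {σ : ℤ} {x : Pos × Fin 6} (hx : InS M σ x) :
    InS M σ (opp x) := by
  obtain ⟨hu, h1, h2⟩ := hx
  refine ⟨hS _ hu, ?_⟩
  rw [gval_opp]
  exact ⟨h1, h2⟩

/-- A suitably connected mosaic of size at least three all of whose interior tiles are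
triple-crossing tiles has at least two components. -/
theorem not_oneComponent (hS : M.SuitablyConnected) (hT : M.AllTriple) (hr : 3 ≤ r) :
    ¬ M.OneComponent := by
  rintro ⟨-, hone⟩
  have h01 := side_alternate hS hT (by omega) 0
  have h12 := side_alternate hS hT (by omega) 1
  have h23 := side_alternate hS hT (by omega) 2
  have h34 := side_alternate hS hT (by omega) 3
  have h45 := side_alternate hS hT (by omega) 4
  obtain ⟨s0, hs0, hU⟩ : ∃ s0 : Fin 6, (s0 = 0 ∨ s0 = 1) ∧
      ∀ s, sgn s = sgn s0 → ¬ M.Used (sideP r s 0, s + 2) := by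
    simp only [show (0 : Fin 6) + 1 = 1 by rfl, show (1 : Fin 6) + 1 = 2 by rfl,
      show (2 : Fin 6) + 1 = 3 by rfl, show (3 : Fin 6) + 1 = 4 by rfl,
      show (4 : Fin 6) + 1 = 5 by rfl] at h01 h12 h23 h34 h45
    by_cases h : M.Used (sideP r 0 0, 0 + 2)
    · refine ⟨1, Or.inr rfl, ?_⟩
      intro s hs
      fin_cases s
      · exact absurd hs (by decide)
      · show ¬ M.Used (sideP r 1 0, 1 + 2)
        tauto
      · exact absurd hs (by decide)
      · show ¬ M.Used (sideP r 3 0, 3 + 2)
        tauto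
      · exact absurd hs (by decide)
      · show ¬ M.Used (sideP r 5 0, 5 + 2)
        tauto
    · refine ⟨0, Or.inl rfl, ?_⟩
      intro s hs
      fin_cases s
      · exact h
      · exact absurd hs (by decide)
      · show ¬ M.Used (sideP r 2 0, 2 + 2)
        tauto
      · exact absurd hs (by decide)
      · show ¬ M.Used (sideP r 4 0, 4 + 2)
        tauto
      · exact absurd hs (by decide)
  have hσ : sgn s0 = 1 ∨ sgn s0 = -1 := by
    unfold sgn
    split_ifs <;> simp
  have hclosed : ∀ x y, M.Joined x y → (InS M (sgn s0) x ↔ InS M (sgn s0) y) := by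
    rintro x y ⟨-, -, rfl | rfl⟩
    · exact ⟨inS_opp hS, fun h => by simpa [opp_opp] using inS_opp hS h⟩
    · exact ⟨inS_mate hS hT (by omega) hσ hU, fun h => by
        simpa [mate_mate] using inS_mate hS hT (by omega) hσ hU h⟩
  have hall : ∀ x y, Relation.EqvGen M.Joined x y → (InS M (sgn s0) x ↔ InS M (sgn s0) y) := by
    intro x y h
    induction h with
    | rel x y h => exact hclosed x y h
    | refl x => rfl
    | symm x y _ ih => exact ih.symm
    | trans x y z _ _ ih1 ih2 => exact ih1.trans ih2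
  obtain ⟨a0, a1, a3, a4⟩ := side_used hS hT s0 1 (by omega) (by omega)
  have hx : InS M (sgn s0) (sideP r s0 1, s0 + 3) := by
    refine ⟨a3, ?_⟩
    rw [gval_side_three, ← mul_assoc]
    rcases hσ with h | h <;> rw [h] <;> omega
  have hc : M.Used ((0, 0), 0) := used_in hT (by rw [hexDist_le_iff]; simp; omega)
  have hc2 := (hall _ _ (hone _ _ a3 hc)).1 hx
  have hc3 := hc2.2.1
  simp [gval] at hc3

end Mosaic

end Pool.Agent.Lib.MP_d1968e_gt
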