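import Pool.Agent.Lib.MP_d1968e_gt.Comp

/-!
# The number of components of a mosaic with triple-crossing interior

The lines at signed distance `m` and `r - 1 - m` from the centre that join the unused sides of
the board close up among themselves, for every `m` with `1 ≤ m ≤ r - 2`.
-/

namespace Pool.Agent.Lib.MP_d1968e_gt

namespace Mosaic

variable {r : ℕ} {M : Mosaic r}

/-- The even sides or the odd sides are unused. -/
theorem exists_unused (hS : M.SuitablyConnected) (hT : M.AllTriple) (hr : 2 ≤ r) :
    ∃ s0 : Fin 6, ∀ s, sgn s = sgn s0 → ¬ M.Used (sideP r s 0, s + 2) := by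
  have h01 := side_alternate hS hT (by omega) 0
  have h12 := side_alternate hS hT (by omega) 1
  have h23 := side_alternate hS hT (by omega) 2
  have h34 := side_alternate hS hT (by omega) 3
  have h45 := side_alternate hS hT (by omega) 4
  simp only [show (0 : Fin 6) + 1 = 1 by rfl, show (1 : Fin 6) + 1 = 2 by rfl,
    show (2 : Fin 6) + 1 = 3 by rfl, show (3 : Fin 6) + 1 = 4 by rfl,
    show (4 : Fin 6) + 1 = 5 by rfl] at h01 h12 h23 h34 h45
  by_cases h : M.Used (sideP r 0 0, 0 + 2)
  · refine ⟨1, ?_⟩
    intro s hs
    fin_cases s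
    · exact absurd hs (by decide)
    · show ¬ M.Used (sideP r 1 0, 1 + 2)
      tauto
    · exact absurd hs (by decide)
    · show ¬ M.Used (sideP r 3 0, 3 + 2)
      tauto
    · exact absurd hs (by decide)
    · show ¬ M.Used (sideP r 5 0, 5 + 2)
      tauto
  · refine ⟨0, ?_⟩
    intro s hs
    fin_cases s
    · exact h
    · exact absurd hs (by decide)
    · show ¬ M.Used (sideP r 2 0, 2 + 2)
      tauto
    · exact absurd hs (by decide)
    · show ¬ M.Used (sideP r 4 0, 4 + 2)
      tauto
    · exact absurd hs (by decide)

/-- The points on the lines at signed distance `m` or `r - 1 - m`. -/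
def InM (M : Mosaic r) (σ m : ℤ) (x : Pos × Fin 6) : Prop :=
  M.Used x ∧ (σ * gval x = m ∨ σ * gval x = r - 1 - m)

theorem inM_mate (hS : M.SuitablyConnected) (hT : M.AllTriple) (hr : 2 ≤ r) {σ m : ℤ}
    (hσ : σ = 1 ∨ σ = -1) (hm1 : 1 ≤ m) (hm2 : m ≤ r - 2)
    (hU : ∀ s, sgn s = σ → ¬ M.Used (sideP r s 0, s + 2))
    {x : Pos × Fin 6} (hx : InM M σ m x) : InM M σ m (M.mate x) := by
  refine ⟨used_mate x hx.1, ?_⟩
  obtain ⟨hu, h12⟩ := hx
  have hu' := used_mate x hu
  have hd : hexDist x.1 ≤ r - 1 := by
    by_contra hcon
    exact not_used_out hcon hu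
  by_cases hd2 : hexDist x.1 ≤ r - 2
  · have : M.mate x = (x.1, x.2 + 3) := by
      unfold mate
      rw [hT x.1 (by omega)]
    rw [this, gval_add_three]
    exact h12
  · obtain ⟨s, j, hj, hp⟩ := exists_side hr hd hd2
    obtain ⟨p, k⟩ := x
    simp only at hp
    subst hp
    have hss : sgn s = 1 ∨ sgn s = -1 := by
      unfold sgn
      split_ifs <;> simp
    rcases Nat.eq_zero_or_pos j with rfl | hj0
    · exfalso
      obtain ⟨a0, a1, a5, a3⟩ := corner_used hS hT hr s
      simp only [Nat.cast_zero] at *
      rcases shift_cases s k with h | h | h | h | h | h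
      · exact a0 (h ▸ hu)
      · exact a1 (h ▸ hu)
      · subst h
        rw [gval_side_two] at h12
        rcases hσ with rfl | rfl <;> rcases hss with h | h <;> rw [h] at h12 <;> omega
      · subst h
        rw [gval_side_three] at h12
        rcases hσ with rfl | rfl <;> rcases hss with h | h <;> rw [h] at h12 <;> omega
      · subst h
        rw [gval_side_four] at h12
        rcases hσ with rfl | rfl <;> rcases hss with h | h <;> rw [h] at h12 <;> omega
      · exact a5 (h ▸ hu)
    · obtain ⟨a0, a1, a3, a4⟩ := side_used hS hT s j (by omega) (by omega)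
      by_cases hsσ : sgn s = σ
      · have b2 : ¬ M.Used (sideP r s j, s + 2) := by
          rw [side_const hS hT s j hj]
          exact hU s hsσ
        have b5 : ¬ M.Used (sideP r s j, s + 5) := by
          rw [← side_lateral hS hT s j (by omega) (by omega)]
          exact b2
        have hl34 : ∀ l : Fin 6, M.Used (sideP r s j, l) → l = s + 3 ∨ l = s + 4 := by
          intro l hl
          rcases shift_cases s l with h | h | h | h | h | h
          · exact absurd (h ▸ hl) a0
          · exact absurd (h ▸ hl) a1
          · exact absurd (h ▸ hl) b2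
          · exact Or.inl h
          · exact Or.inr h
          · exact absurd (h ▸ hl) b5
        have hm : M.mate (sideP r s j, k) = (sideP r s j, s + 3) ∨
            M.mate (sideP r s j, k) = (sideP r s j, s + 4) := by
          rcases hl34 _ hu' with h | h
          · left
            exact Prod.ext rfl h
          · right
            exact Prod.ext rfl h
        have hval : σ * (sgn s * (j : ℤ)) = j ∧
            σ * (sgn s * ((r : ℤ) - 1 - j)) = r - 1 - j := by
          rw [hsσ]
          rcases hσ with rfl | rfl <;> constructor <;> ring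
        have hjm : (j : ℤ) = m ∨ (j : ℤ) = r - 1 - m := by
          rcases hl34 k hu with h | h
          · subst h
            rw [gval_side_three, hval.1] at h12
            exact h12
          · subst h
            rw [gval_side_four, hval.2] at h12
            omega
        rcases hm with h | h
        · rw [h, gval_side_three, hval.1]
          exact hjm
        · rw [h, gval_side_four, hval.2]
          omega
      · exfalso
        have hneg : sgn s = -σ := by
          rcases hσ with rfl | rfl <;> rcases hss with h | h <;> simp_all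
        rcases shift_cases s k with h | h | h | h | h | h
        · exact a0 (h ▸ hu)
        · exact a1 (h ▸ hu)
        · subst h
          rw [gval_side_two, hneg] at h12
          rcases hσ with rfl | rfl <;> omega
        · subst h
          rw [gval_side_three, hneg] at h12
          rcases hσ with rfl | rfl <;> omega
        · subst h
          rw [gval_side_four, hneg] at h12
          rcases hσ with rfl | rfl <;> omega
        · subst h
          rw [gval_side_five, hneg] at h12
          rcases hσ with rfl | rfl <;> omega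

theorem inM_opp (hS : M.SuitablyConnected) {σ m : ℤ} {x : Pos × Fin 6} (hx : InM M σ m x) :
    InM M σ m (opp x) := by
  obtain ⟨hu, h1⟩ := hx
  refine ⟨hS _ hu, ?_⟩
  rw [gval_opp]
  exact h1

/-- A suitably connected mosaic of size `r` all of whose interior tiles are triple-crossing
tiles has at least `⌈r / 2⌉` components. -/
theorem components (hS : M.SuitablyConnected) (hT : M.AllTriple) (hr : 2 ≤ r) :
    ∃ f : Fin ((r + 1) / 2) → Pos × Fin 6, (∀ i, M.Used (f i)) ∧
      ∀ i j, i ≠ j → ¬ Relation.EqvGen M.Joined (f i) (f j) := by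
  obtain ⟨s0, hU⟩ := exists_unused hS hT hr
  have hσ : sgn s0 = 1 ∨ sgn s0 = -1 := by
    unfold sgn
    split_ifs <;> simp
  have hclosed : ∀ m : ℤ, 1 ≤ m → m ≤ r - 2 → ∀ x y, M.Joined x y →
      (InM M (sgn s0) m x ↔ InM M (sgn s0) m y) := by
    rintro m hm1 hm2 x y ⟨-, -, rfl | rfl⟩
    · exact ⟨inM_opp hS, fun h => by simpa [opp_opp] using inM_opp hS h⟩
    · exact ⟨inM_mate hS hT hr hσ hm1 hm2 hU, fun h => by
        simpa [mate_mate] using inM_mate hS hT hr hσ hm1 hm2 hU h⟩
  have hall : ∀ m : ℤ, 1 ≤ m → m ≤ r - 2 → ∀ x y, Relation.EqvGen M.Joined x y →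
      (InM M (sgn s0) m x ↔ InM M (sgn s0) m y) := by
    intro m hm1 hm2 x y h
    induction h with
    | rel x y h => exact hclosed m hm1 hm2 x y h
    | refl x => rfl
    | symm x y _ ih => exact ih.symm
    | trans x y z _ _ ih1 ih2 => exact ih1.trans ih2
  let f : Fin ((r + 1) / 2) → Pos × Fin 6 := fun i =>
    if i.val = 0 then ((0, 0), 0) else (sideP r s0 i.val, s0 + 3)
  have hf0 : ∀ i : Fin ((r + 1) / 2), i.val = 0 → f i = ((0, 0), 0) := by
    intro i hi
    simp only [f, if_pos hi]
  have hf1 : ∀ i : Fin ((r + 1) / 2), i.val ≠ 0 → f i = (sideP r s0 i.val, s0 + 3) := by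
    intro i hi
    simp only [f, if_neg hi]
  have hlt : ∀ i : Fin ((r + 1) / 2), 2 * i.val + 1 ≤ r := by
    intro i
    have := i.isLt
    omega
  have hg : ∀ i : Fin ((r + 1) / 2), sgn s0 * gval (f i) = i.val := by
    intro i
    by_cases hi : i.val = 0
    · rw [hf0 i hi, hi]
      simp [gval]
    · rw [hf1 i hi, gval_side_three, ← mul_assoc]
      rcases hσ with h | h <;> rw [h] <;> ring
  have hu : ∀ i, M.Used (f i) := by
    intro i
    have h1 := hlt i
    by_cases hi : i.val = 0
    · rw [hf0 i hi]
      exact used_in hT (by rw [hexDist_le_iff]; simp; omega)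
    · rw [hf1 i hi]
      exact (side_used hS hT s0 i.val (by omega) (by omega)).2.2.1
  have key : ∀ i j : Fin ((r + 1) / 2), i.val < j.val →
      ¬ Relation.EqvGen M.Joined (f i) (f j) := by
    intro i j hij h
    have h1 := hlt i
    have h2 := hlt j
    have hj : InM M (sgn s0) j.val (f j) := ⟨hu j, Or.inl (hg j)⟩
    have hi := (hall j.val (by omega) (by omega) _ _ h).2 hj
    have h3 := hi.2
    rw [hg i] at h3
    omega
  refine ⟨f, hu, ?_⟩
  intro i j hij
  rcases Nat.lt_trichotomy i.val j.val with h | h | h
  · exact key i j h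
  · exact absurd (Fin.ext h) hij
  · exact fun h2 => key j i h h2.symm

end Mosaic

end Pool.Agent.Lib.MP_d1968e_gt
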