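import Mathlib

/-!
# Hexagonal knot mosaics and their Gauss words

Tiles sit at the points of `ℤ × ℤ` (axial coordinates of the hexagonal tiling);
the edges of a tile are numbered by `Fin 6` counterclockwise, and the tile across the
edge `k` of the tile at `p` sits at `p + dir k`, its edge `k + 3` being the common one.
-/

namespace Pool.Agent.Lib.MP_d1968e_gt

/-- The position of a tile, in axial coordinates. -/
abbrev Pos := ℤ × ℤ

/-- The six neighbours of the tile `(0, 0)`, counterclockwise. -/
def dir : Fin 6 → Pos :=
  ![(1, 0), (0, 1), (-1, 1), (-1, 0), (0, -1), (1, -1)]

/-- The tile distance from the centre tile `(0, 0)`. -/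
def hexDist (p : Pos) : ℤ := max |p.1| (max |p.2| |p.1 + p.2|)

/-- A tile. `conn k` is the other end of the arc that ends at the midpoint of the edge `k`,
and `conn k = k` if no arc ends there. An arc is named by the smaller of its two ends; when
the arcs named `i < j` cross, `upper i j` says whether the arc `i` passes over the arc `j`.
When three arcs cross pairwise, which happens only for the three arcs joining opposite
edges, there are two ways of drawing them (the third arc may pass on either side of the
crossing of the two others), and `tri` tells which one is used: see `crossersInOrder`. -/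
structure Tile where
  conn : Fin 6 → Fin 6
  conn_conn : ∀ k, conn (conn k) = k
  upper : Fin 6 → Fin 6 → Bool
  tri : Bool

namespace Tile

variable (T : Tile)

/-- All six midpoints are used, by three arcs joining opposite midpoints. -/
def IsTriple : Prop := ∀ k, T.conn k = k + 3

instance : Decidable T.IsTriple := by unfold IsTriple; infer_instance

/-- The name of the arc that ends at `k`. -/
def arc (k : Fin 6) : Fin 6 := min k (T.conn k)

/-- Number of steps counterclockwise from the edge `a` to the edge `x`. -/
def ccw (a x : Fin 6) : ℕ := (x - a).val

/-- The ends, on the right-hand side of the arc that goes from `a` to `conn a`, of the arcs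
that cross it, counterclockwise from `a`. -/
def crossers (a : Fin 6) : List (Fin 6) :=
  ([a + 1, a + 2, a + 3, a + 4, a + 5] : List (Fin 6)).filter fun c =>
    decide (ccw a c < ccw a (T.conn a)) && decide (ccw a (T.conn a) < ccw a (T.conn c))

/-- The same ends, in the order in which a point that travels along the arc from `a` to
`conn a` meets the crossings. If two arcs cross the arc `a -- conn a` but not each other, then
this is the order of `crossers`; the other case is that of the triple crossing tile. -/
def crossersInOrder (a : Fin 6) : List (Fin 6) :=
  if T.IsTriple ∧ (decide (a.val % 2 = 0) ≠ T.tri) then (T.crossers a).reverse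
  else T.crossers a

/-- The arc that ends at `a` passes over the arc that ends at `c`. -/
def isOver (a c : Fin 6) : Bool :=
  if T.arc a < T.arc c then T.upper (T.arc a) (T.arc c) else !(T.upper (T.arc c) (T.arc a))

/-- The crossings met when travelling along the arc from `a` to `conn a`, each given by the
names of its two arcs and by whether the travelling point is on the upper strand. -/
def letters (a : Fin 6) : List ((Fin 6 × Fin 6) × Bool) :=
  (T.crossersInOrder a).map fun c =>
    ((min (T.arc a) (T.arc c), max (T.arc a) (T.arc c)), T.isOver a c)

end Tile

/-- The label of a crossing: the position of its tile and the names of its two arcs. -/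
abbrev Label := Pos × (Fin 6 × Fin 6)

/-- A hexagonal `r`-mosaic: a tile at each position at distance at most `r - 1`. We put tiles
without arcs at all other positions. -/
structure Mosaic (r : ℕ) where
  tile : Pos → Tile
  empty_of_le : ∀ p : Pos, (r : ℤ) ≤ hexDist p → ∀ k, (tile p).conn k = k

namespace Mosaic

variable {r : ℕ} (M : Mosaic r)

/-- The midpoint of the edge `x.2` of the tile at `x.1` is a connection point of that tile. -/
def Used (x : Pos × Fin 6) : Prop := (M.tile x.1).conn x.2 ≠ x.2

instance (x : Pos × Fin 6) : Decidable (M.Used x) := by unfold Used; infer_instance

/-- The same midpoint, seen from the tile on the other side of the edge. -/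
def opp (x : Pos × Fin 6) : Pos × Fin 6 := (x.1 + dir x.2, x.2 + 3)

/-- The other end of the arc that ends at `x`. -/
def mate (x : Pos × Fin 6) : Pos × Fin 6 := (x.1, (M.tile x.1).conn x.2)

/-- Every connection point of a tile is a connection point of the adjacent tile. -/
def SuitablyConnected : Prop := ∀ x, M.Used x → M.Used (opp x)

/-- Two connection points that are equal, or are the ends of an arc. -/
def Joined (x y : Pos × Fin 6) : Prop := M.Used x ∧ M.Used y ∧ (y = opp x ∨ y = M.mate x)

/-- The diagram has exactly one component. -/
def OneComponent : Prop :=
  (∃ x, M.Used x) ∧ ∀ x y, M.Used x → M.Used y → Relation.EqvGen M.Joined x y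

/-- All interior tiles (those at distance at most `r - 2`) are triple-crossing tiles. -/
def AllTriple : Prop := ∀ p : Pos, hexDist p + 2 ≤ r → (M.tile p).IsTriple

/-- A point that has entered a tile at `x` leaves it at `M.mate x`, and enters the next tile
at `M.step x`. -/
def step (x : Pos × Fin 6) : Pos × Fin 6 := opp (M.mate x)

/-- The crossings met in the tile entered at `x`. -/
def letters (x : Pos × Fin 6) : List (Label × Bool) :=
  ((M.tile x.1).letters x.2).map fun l => ((x.1, l.1), l.2)

/-- The Gauss word read off when travelling once around the component that contains `x`. -/
noncomputable def word (x : Pos × Fin 6) : List (Label × Bool) :=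
  (List.range (Function.minimalPeriod M.step x)).flatMap fun t => M.letters (M.step^[t] x)

end Mosaic

/-- Elementary changes of a Gauss word (a list of letters `(i, true)`, upper strand of the
crossing `i`, and `(i, false)`, lower strand of the crossing `i`): change of the base point, of
the direction and of the names of the crossings, and the three Reidemeister moves. In a
Reidemeister move of the third kind the top strand carries the crossings `i` and `j`, the
middle strand `i` and `k`, and the bottom strand `j` and `k`, and on each strand the two
crossings are exchanged. We ask for no condition of planarity and no condition on the signs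
of the crossings or on the directions of the strands, so that every change
of the Gauss word of a diagram that comes from a Reidemeister move, or from an isotopy of the
plane, is a (composition of) `Move`s or their inverses, and perhaps others are too. -/
inductive Move {α : Type} : List (α × Bool) → List (α × Bool) → Prop
  | rotate (u v : List (α × Bool)) : Move (u ++ v) (v ++ u)
  | reverse (w : List (α × Bool)) : Move w w.reverse
  | relabel (f : α ≃ α) (w : List (α × Bool)) : Move w (w.map fun x => (f x.1, x.2))
  | one (u v : List (α × Bool)) (i : α) (b : Bool)
      (hi : ∀ x ∈ u ++ v, x.1 ≠ i) :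
      Move (u ++ v) (u ++ [(i, b), (i, !b)] ++ v)
  | two (u v w Y : List (α × Bool)) (i j : α) (hij : i ≠ j)
      (hY : Y = [(i, false), (j, false)] ∨ Y = [(j, false), (i, false)])
      (hi : ∀ x ∈ u ++ v ++ w, x.1 ≠ i) (hj : ∀ x ∈ u ++ v ++ w, x.1 ≠ j) :
      Move (u ++ v ++ w) (u ++ [(i, true), (j, true)] ++ v ++ Y ++ w)
  | three (u v w t X Y Z : List (α × Bool)) (i j k : α) (hij : i ≠ j) (hik : i ≠ k)
      (hjk : j ≠ k)
      (hX : X = [(i, true), (j, true)] ∨ X = [(j, true), (i, true)])
      (hYZ : ((Y = [(i, false), (k, true)] ∨ Y = [(k, true), (i, false)]) ∧
          (Z = [(j, false), (k, false)] ∨ Z = [(k, false), (j, false)])) ∨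
        ((Z = [(i, false), (k, true)] ∨ Z = [(k, true), (i, false)]) ∧
          (Y = [(j, false), (k, false)] ∨ Y = [(k, false), (j, false)])))
      (hk : ∀ x ∈ u ++ v ++ w ++ t, x.1 ≠ k) :
      Move (u ++ X ++ v ++ Y ++ w ++ Z ++ t)
        (u ++ X.reverse ++ v ++ Y.reverse ++ w ++ Z.reverse ++ t)

/-- Two Gauss words are Reidemeister equivalent (in the coarse sense of `Move`). -/
def REquiv {α : Type} : List (α × Bool) → List (α × Bool) → Prop := Relation.EqvGen Move

/-- The one-component mosaics `M` and `N` may represent the same knot: some Gauss words of
theirs are Reidemeister equivalent. -/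
def Mosaic.SameKnot {r n : ℕ} (M : Mosaic r) (N : Mosaic n) : Prop :=
  ∃ x y, M.Used x ∧ N.Used y ∧ REquiv (M.word x) (N.word y)

end Pool.Agent.Lib.MP_d1968e_gt
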