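import Pool.Agent.Lib.MP_d1968e_gt.Three

/-!
# The mosaics of size two with triple-crossing centre: existence
-/

namespace Pool.Agent.Lib.MP_d1968e_gt

theorem connC_none (c : Bool) {p : Pos} (hp : p ≠ (0, 0)) (hp2 : ¬ ∃ s, dir s = p)
    (k : Fin 6) : connC c p k = k := by
  have hnone : (List.finRange 6).find? (fun s => decide (dir s = p)) = none := by
    rw [List.find?_eq_none]
    intro s _ h
    exact hp2 ⟨s, of_decide_eq_true h⟩
  unfold connC
  rw [if_neg hp, hnone]

theorem connC_connC (c : Bool) (p : Pos) (k : Fin 6) : connC c p (connC c p k) = k := by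
  by_cases hp : p = (0, 0)
  · subst hp
    rw [connC_zero, connC_zero]
    revert k
    decide
  by_cases hp2 : ∃ s, dir s = p
  · obtain ⟨s, rfl⟩ := hp2
    revert c s k
    decide
  · rw [connC_none c hp hp2, connC_none c hp hp2]

/-- The mosaic of size two with the given crossings in the centre, in which the even (for
`c = true`) or the odd sides are used. -/
def small (tri u01 u02 u12 c : Bool) : Mosaic 2 where
  tile p :=
    { conn := connC c p
      conn_conn := connC_connC c p
      upper := uu u01 u02 u12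
      tri := tri }
  empty_of_le := by
    intro p hp k
    apply connC_none
    · rintro rfl
      revert hp
      decide
    · rintro ⟨s, rfl⟩
      revert hp
      revert s
      decide

variable {tri u01 u02 u12 c : Bool}

theorem small_conn (p : Pos) (k : Fin 6) :
    ((small tri u01 u02 u12 c).tile p).conn k = connC c p k := rfl

theorem small_all {P : Pos × Fin 6 → Prop} (h0 : ∀ k, P ((0, 0), k))
    (h1 : ∀ s k, connC c (dir s) k ≠ k → P (dir s, k)) {x : Pos × Fin 6}
    (hx : (small tri u01 u02 u12 c).Used x) : P x := by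
  have hc : ∀ p k, ((small tri u01 u02 u12 c).tile p).conn k = connC c p k :=
    fun p k => small_conn p k
  rcases Mosaic.cases_of_used hc hx with ⟨k, rfl⟩ | ⟨s, k, rfl⟩
  · exact h0 k
  · exact h1 s k ((Mosaic.used_iff hc _).1 hx)

theorem small_suitablyConnected : (small tri u01 u02 u12 c).SuitablyConnected := by
  intro x hx
  refine small_all (P := fun x => connC c (Mosaic.opp x).1 (Mosaic.opp x).2 ≠
    (Mosaic.opp x).2) ?_ ?_ hx
  · clear hx x
    revert c
    decide
  · clear hx x
    revert c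
    decide

theorem small_allTriple : (small tri u01 u02 u12 c).AllTriple := by
  intro p hp k
  have hp2 : p = (0, 0) := by
    have h : hexDist p ≤ 0 := by
      push_cast at hp
      omega
    rw [hexDist_le_iff] at h
    obtain ⟨a, b⟩ := p
    simp only at h
    have ha : a = 0 := by omega
    have hb : b = 0 := by omega
    rw [ha, hb]
  subst hp2
  show connC c (0, 0) k = k + 3
  exact connC_zero c k

/-- Leaving through the arc that starts at `x`. -/
def mateC (c : Bool) (x : Pos × Fin 6) : Pos × Fin 6 := (x.1, connC c x.1 x.2)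

theorem small_reach {x : Pos × Fin 6} (hx : (small tri u01 u02 u12 c).Used x) :
    ∃ t : Fin 9, (stepC c)^[t] ((0, 0), 0) = x ∨
      mateC c ((stepC c)^[t] ((0, 0), 0)) = x := by
  refine small_all (P := fun x => ∃ t : Fin 9, (stepC c)^[t] ((0, 0), 0) = x ∨
      mateC c ((stepC c)^[t] ((0, 0), 0)) = x) ?_ ?_ hx
  · clear hx x
    revert c
    decide
  · clear hx x
    revert c
    decide

theorem small_iterate (t : ℕ) :
    (small tri u01 u02 u12 c).Used ((small tri u01 u02 u12 c).step^[t] ((0, 0), 0)) ∧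
    Relation.EqvGen (small tri u01 u02 u12 c).Joined ((0, 0), 0)
      ((small tri u01 u02 u12 c).step^[t] ((0, 0), 0)) := by
  induction t with
  | zero =>
    refine ⟨?_, Relation.EqvGen.refl _⟩
    show connC c (0, 0) 0 ≠ 0
    rw [connC_zero]
    decide
  | succ t ih =>
    rw [Function.iterate_succ_apply']
    set y := (small tri u01 u02 u12 c).step^[t] ((0, 0), 0)
    have h1 := Mosaic.used_mate y ih.1
    have h2 : (small tri u01 u02 u12 c).Used ((small tri u01 u02 u12 c).step y) :=
      small_suitablyConnected _ h1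
    refine ⟨h2, ih.2.trans _ _ _
      (Relation.EqvGen.trans _ ((small tri u01 u02 u12 c).mate y) _ ?_ ?_)⟩
    · exact Relation.EqvGen.rel _ _ ⟨ih.1, h1, Or.inr rfl⟩
    · exact Relation.EqvGen.rel _ _ ⟨h1, h2, Or.inl rfl⟩

theorem small_step : (small tri u01 u02 u12 c).step = stepC c := rfl

theorem small_joined {x : Pos × Fin 6} (hx : (small tri u01 u02 u12 c).Used x) :
    Relation.EqvGen (small tri u01 u02 u12 c).Joined ((0, 0), 0) x := by
  obtain ⟨t, ht | ht⟩ := small_reach hx
  · rw [← small_step (tri := tri) (u01 := u01) (u02 := u02) (u12 := u12)] at ht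
    rw [← ht]
    exact (small_iterate t).2
  · rw [← small_step (tri := tri) (u01 := u01) (u02 := u02) (u12 := u12)] at ht
    have ht2 : (small tri u01 u02 u12 c).mate
        ((small tri u01 u02 u12 c).step^[t] ((0, 0), 0)) = x := ht
    rw [← ht2] at hx ⊢
    refine (small_iterate t).2.trans _ _ _ ?_
    exact Relation.EqvGen.rel _ _ ⟨(small_iterate t).1, hx, Or.inr rfl⟩

theorem small_oneComponent : (small tri u01 u02 u12 c).OneComponent :=
  ⟨⟨((0, 0), 0), (small_iterate 0).1⟩, fun _ _ hx hy =>
    ((small_joined hx).symm).trans _ _ _ (small_joined hy)⟩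

theorem small_word (k : Fin 6) (hk : k = 0 ∨ k = 3) :
    (small tri u01 u02 u12 c).word ((0, 0), k) =
      (Mosaic.wordC tri u01 u02 u12 c k).map fun l => (flab l.1, l.2) :=
  Mosaic.word_eq (fun p k => small_conn p k) k hk

theorem small_requiv {x : Pos × Fin 6} (hx : (small tri u01 u02 u12 c).Used x) :
    REquiv ((small tri u01 u02 u12 c).word x) ((small tri u01 u02 u12 c).word ((0, 0), 0)) ∨
    REquiv ((small tri u01 u02 u12 c).word x)
      ((small tri u01 u02 u12 c).word ((0, 0), 3)) := by
  have hper : ∀ k : Fin 6, k = 0 ∨ k = 3 →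
      ((0, 0), k) ∈ Function.periodicPts (small tri u01 u02 u12 c).step := by
    intro k hk
    apply Function.minimalPeriod_pos_iff_mem_periodicPts.1
    rw [small_step, Mosaic.minimalPeriod_stepC c k hk]
    norm_num
  have hreach : ∃ t : Fin 9, (stepC c)^[t] ((0, 0), 0) = x ∨
      (stepC c)^[t] ((0, 0), 3) = x := by
    refine small_all (P := fun x => ∃ t : Fin 9, (stepC c)^[t] ((0, 0), 0) = x ∨
      (stepC c)^[t] ((0, 0), 3) = x) ?_ ?_ hx
    · exact fun k => Mosaic.reach0 c k
    · exact fun s k h => Mosaic.reach c s k h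
  obtain ⟨t, ht | ht⟩ := hreach
  · left
    rw [← small_step (tri := tri) (u01 := u01) (u02 := u02) (u12 := u12)] at ht
    rw [← ht]
    exact Mosaic.requiv_word_iterate (hper 0 (Or.inl rfl)) t
  · right
    rw [← small_step (tri := tri) (u01 := u01) (u02 := u02) (u12 := u12)] at ht
    rw [← ht]
    exact Mosaic.requiv_word_iterate (hper 3 (Or.inr rfl)) t

/-- Three kinks. -/
def Kinks (w : List (Fin 3 × Bool)) : Prop :=
  ∃ a b d : Fin 3, a ≠ b ∧ a ≠ d ∧ b ≠ d ∧ ∃ x y z : Bool,
    w = [(a, x), (a, !x), (b, y), (b, !y), (d, z), (d, !z)] ∨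
    w = [(a, !x), (b, y), (b, !y), (d, z), (d, !z), (a, x)]

/-- A trefoil word, up to the base point. -/
def Tref (w : List (Fin 3 × Bool)) : Prop :=
  ∃ a b d : Fin 3, a ≠ b ∧ a ≠ d ∧ b ≠ d ∧
    (w = trefoilWord a b d ∨
      w = [(a, false), (b, true), (d, false), (a, true), (b, false), (d, true)])

instance (w : List (Fin 3 × Bool)) : Decidable (Kinks w) := by
  unfold Kinks
  infer_instance

instance (w : List (Fin 3 × Bool)) : Decidable (Tref w) := by
  unfold Tref
  infer_instance

theorem Kinks.requiv {w : List (Fin 3 × Bool)} (h : Kinks w) : REquiv w [] := by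
  obtain ⟨a, b, d, hab, had, hbd, x, y, z, h | h⟩ := h
  · rw [h]
    exact requiv_kinks hab had hbd x y z
  · rw [h]
    refine REquiv.trans' ?_ (requiv_kinks hab had hbd x y z)
    exact requiv_rotate [(a, !x), (b, y), (b, !y), (d, z), (d, !z)] [(a, x)]

theorem Tref.requiv {w : List (Fin 3 × Bool)} (h : Tref w) :
    ∃ a b d : Fin 3, a ≠ b ∧ a ≠ d ∧ b ≠ d ∧ REquiv w (trefoilWord a b d) := by
  obtain ⟨a, b, d, hab, had, hbd, h | h⟩ := h
  · rw [h]
    exact ⟨a, b, d, hab, had, hbd, REquiv.rfl'⟩
  · rw [h]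
    refine ⟨b, d, a, hbd, hab.symm, had.symm, ?_⟩
    exact requiv_rotate [(a, false)] [(b, true), (d, false), (a, true), (b, false), (d, true)]

theorem exists_kinks : ∃ tri u01 u02 u12 c : Bool,
    Kinks (Mosaic.wordC tri u01 u02 u12 c 0) ∧ Kinks (Mosaic.wordC tri u01 u02 u12 c 3) := by
  decide

theorem exists_tref : ∃ tri u01 u02 u12 c : Bool,
    Tref (Mosaic.wordC tri u01 u02 u12 c 0) ∧ Tref (Mosaic.wordC tri u01 u02 u12 c 3) := by
  decide

/-- The unknot is a mosaic of size two with triple-crossing centre. -/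
theorem exists_unknot_two : ∃ M : Mosaic 2, M.SuitablyConnected ∧ M.OneComponent ∧
    M.AllTriple ∧ ∀ x, M.Used x → REquiv (M.word x) [] := by
  obtain ⟨tri, u01, u02, u12, c, h0, h3⟩ := exists_kinks
  refine ⟨small tri u01 u02 u12 c, small_suitablyConnected, small_oneComponent,
    small_allTriple, fun x hx => ?_⟩
  rcases small_requiv hx with h | h
  · refine h.trans' ?_
    rw [small_word 0 (Or.inl rfl)]
    simpa using h0.requiv.map ⟨flab, flab_injective⟩
  · refine h.trans' ?_
    rw [small_word 3 (Or.inr rfl)]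
    simpa using h3.requiv.map ⟨flab, flab_injective⟩

theorem tref_map {w : List (Fin 3 × Bool)} (h : Tref w) :
    ∃ a b c : Label, a ≠ b ∧ a ≠ c ∧ b ≠ c ∧
      REquiv (w.map fun l => (flab l.1, l.2)) (trefoilWord a b c) := by
  obtain ⟨a, b, d, hab, had, hbd, h⟩ := h.requiv
  exact ⟨flab a, flab b, flab d, fun h => hab (flab_injective h),
    fun h => had (flab_injective h), fun h => hbd (flab_injective h),
    h.map ⟨flab, flab_injective⟩⟩

/-- The trefoil is a mosaic of size two with triple-crossing centre. -/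
theorem exists_trefoil_two : ∃ M : Mosaic 2, M.SuitablyConnected ∧ M.OneComponent ∧
    M.AllTriple ∧ ∀ x, M.Used x → ∃ a b c : Label, a ≠ b ∧ a ≠ c ∧ b ≠ c ∧
      REquiv (M.word x) (trefoilWord a b c) := by
  obtain ⟨tri, u01, u02, u12, c, h0, h3⟩ := exists_tref
  refine ⟨small tri u01 u02 u12 c, small_suitablyConnected, small_oneComponent,
    small_allTriple, fun x hx => ?_⟩
  rcases small_requiv hx with h | h
  · obtain ⟨a, b, d, hab, had, hbd, h4⟩ := tref_map h0
    refine ⟨a, b, d, hab, had, hbd, h.trans' ?_⟩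
    rw [small_word 0 (Or.inl rfl)]
    exact h4
  · obtain ⟨a, b, d, hab, had, hbd, h4⟩ := tref_map h3
    refine ⟨a, b, d, hab, had, hbd, h.trans' ?_⟩
    rw [small_word 3 (Or.inr rfl)]
    exact h4

theorem exists_perm {α : Type} {a b c a' b' c' : α} (hab : a ≠ b) (hac : a ≠ c)
    (hbc : b ≠ c) (hab' : a' ≠ b') (hac' : a' ≠ c') (hbc' : b' ≠ c') :
    ∃ f : α ≃ α, f a = a' ∧ f b = b' ∧ f c = c' := by
  classical
  let f1 : Equiv.Perm α := Equiv.swap a a'
  let f2 : Equiv.Perm α := f1.trans (Equiv.swap (f1 b) b')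
  let f3 : Equiv.Perm α := f2.trans (Equiv.swap (f2 c) c')
  have h1a : f1 a = a' := Equiv.swap_apply_left a a'
  have h1b : f1 b ≠ a' := by
    rw [← h1a]
    exact fun h => hab (f1.injective h).symm
  have h2a : f2 a = a' := by
    show Equiv.swap (f1 b) b' (f1 a) = a'
    rw [h1a]
    exact Equiv.swap_apply_of_ne_of_ne h1b.symm hab'
  have h2b : f2 b = b' := Equiv.swap_apply_left (f1 b) b'
  have h2ca : f2 c ≠ a' := by
    rw [← h2a]
    exact fun h => hac (f2.injective h).symm
  have h2cb : f2 c ≠ b' := by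
    rw [← h2b]
    exact fun h => hbc (f2.injective h).symm
  refine ⟨f3, ?_, ?_, Equiv.swap_apply_left (f2 c) c'⟩
  · show Equiv.swap (f2 c) c' (f2 a) = a'
    rw [h2a]
    exact Equiv.swap_apply_of_ne_of_ne h2ca.symm hac'
  · show Equiv.swap (f2 c) c' (f2 b) = b'
    rw [h2b]
    exact Equiv.swap_apply_of_ne_of_ne h2cb.symm hbc'

theorem requiv_trefoilWord {α : Type} {a b c a' b' c' : α} (hab : a ≠ b) (hac : a ≠ c)
    (hbc : b ≠ c) (hab' : a' ≠ b') (hac' : a' ≠ c') (hbc' : b' ≠ c') :
    REquiv (trefoilWord a b c) (trefoilWord a' b' c') := by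
  obtain ⟨f, rfl, rfl, rfl⟩ := exists_perm hab hac hbc hab' hac' hbc'
  exact (Move.relabel f (trefoilWord a b c)).requiv

/-- A one-component mosaic with triple-crossing interior has size two and is the unknot or the
trefoil. -/
theorem classification {r : ℕ} {M : Mosaic r} (hr : 2 ≤ r) (hS : M.SuitablyConnected)
    (hO : M.OneComponent) (hT : M.AllTriple) :
    r = 2 ∧ ∀ x, M.Used x → (REquiv (M.word x) [] ∨ ∃ a b c : Label, a ≠ b ∧ a ≠ c ∧ b ≠ c ∧
      REquiv (M.word x) (trefoilWord a b c)) := by
  have hr2 : r = 2 := by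
    by_contra hcon
    exact Mosaic.not_oneComponent hS hT (by omega) hO
  subst hr2
  exact ⟨rfl, fun x hx => Mosaic.unknotOrTrefoil_two hS hT hx⟩

theorem not_colorable_nil {α : Type} {R : Type} [CommRing R] :
    ¬ Colorable R ([] : List (α × Bool)) := by
  rintro ⟨x, c, -, l, hl, -⟩
  simp at hl

/-- The trefoil has a nonconstant colouring modulo three. -/
theorem colorable_trefoilWord {α : Type} {a b c : α} (hab : a ≠ b) (hac : a ≠ c)
    (hbc : b ≠ c) : Colorable (ZMod 3) (trefoilWord a b c) := by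
  classical
  refine ⟨0, fun i => if i = a then 0 else if i = b then 1 else 2, ?_, (b, false), ?_, ?_⟩
  · simp only [trefoilWord, runs_true, runs_false, runs_nil, hab.symm, hac.symm, hbc.symm,
      if_true, if_false]
    decide
  · simp [trefoilWord]
  · simp [hab.symm]

theorem not_requiv_trefoilWord {α : Type} {a b c : α} (hab : a ≠ b) (hac : a ≠ c)
    (hbc : b ≠ c) : ¬ REquiv (trefoilWord a b c) [] := fun h =>
  not_colorable_nil ((colorable_requiv (ZMod 3) h).1 (colorable_trefoilWord hab hac hbc))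

end Pool.Agent.Lib.MP_d1968e_gt
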