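import Pool.Agent.Lib.MP_d1968e_gt.Uncol

/-!
# The figure-eight knot as a hexagonal mosaic
-/

namespace Pool.Agent.Lib.MP_d1968e_gt

/-- The nonempty tiles of a mosaic of size three that represents the figure-eight knot. -/
def figTable : List (Pos × (Fin 6 → Fin 6)) :=
  [((-2, 0), ![0, 5, 2, 3, 4, 1]), ((-2, 1), ![4, 5, 2, 3, 0, 1]),
   ((-2, 2), ![4, 1, 2, 3, 0, 5]), ((-1, -1), ![0, 1, 5, 3, 4, 2]),
   ((-1, 0), ![0, 2, 1, 3, 4, 5]), ((-1, 1), ![0, 4, 2, 5, 1, 3]),
   ((-1, 2), ![4, 1, 2, 5, 0, 3]), ((0, -2), ![2, 1, 0, 3, 4, 5]),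
   ((0, 0), ![0, 2, 1, 3, 4, 5]), ((0, 1), ![0, 4, 5, 3, 1, 2]),
   ((0, 2), ![0, 1, 2, 4, 3, 5]), ((1, -2), ![0, 3, 2, 1, 4, 5]),
   ((1, -1), ![0, 4, 2, 3, 1, 5]), ((1, 0), ![0, 1, 4, 3, 2, 5])]

/-- The connections of the tile at `p`. -/
def figConn (p : Pos) : Fin 6 → Fin 6 :=
  match figTable.find? (fun e => decide (e.1 = p)) with
  | none => id
  | some e => e.2

theorem figConn_cases (p : Pos) : (∀ k, figConn p k = k) ∨
    ∃ e ∈ figTable, e.1 = p ∧ figConn p = e.2 := by
  unfold figConn
  rcases h : figTable.find? (fun e => decide (e.1 = p)) with _ | e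
  · left
    intro k
    rw [h]
    rfl
  · right
    refine ⟨e, List.mem_of_find?_eq_some h, ?_, by rw [h]⟩
    have := List.find?_some h
    exact of_decide_eq_true this

/-- A mosaic of size three that represents the figure-eight knot. -/
def fig : Mosaic 3 where
  tile p :=
    { conn := figConn p
      conn_conn := by
        rcases figConn_cases p with h | ⟨e, he, -, h⟩
        · intro k
          rw [h, h]
        · rw [h]
          have h2 : ∀ e ∈ figTable, ∀ k, e.2 (e.2 k) = k := by decide
          exact h2 e he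
      upper := fun _ _ => decide (p = (-1, 2))
      tri := true }
  empty_of_le := by
    intro p hp
    rcases figConn_cases p with h | ⟨e, he, h1, -⟩
    · exact h
    · exfalso
      have : ∀ e ∈ figTable, hexDist e.1 ≤ 2 := by decide
      have := this e he
      rw [h1] at this
      push_cast at hp
      omega

theorem fig_used {x : Pos × Fin 6} (hx : fig.Used x) :
    ∃ e ∈ figTable, e.1 = x.1 ∧ e.2 x.2 ≠ x.2 := by
  have hx' : figConn x.1 x.2 ≠ x.2 := hx
  rcases figConn_cases x.1 with h | ⟨e, he, h1, h2⟩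
  · exact absurd (h x.2) hx'
  · exact ⟨e, he, h1, by rw [← h2]; exact hx'⟩

theorem fig_all {P : Pos × Fin 6 → Prop}
    (h : ∀ e ∈ figTable, ∀ k, e.2 k ≠ k → P (e.1, k)) {x : Pos × Fin 6} (hx : fig.Used x) :
    P x := by
  obtain ⟨e, he, h1, h2⟩ := fig_used hx
  have := h e he x.2 h2
  rwa [h1] at this

theorem fig_suitablyConnected : fig.SuitablyConnected := by
  intro x hx
  refine fig_all (P := fun x => fig.Used (Mosaic.opp x)) ?_ hx
  decide

/-- The base point. -/
def figBase : Pos × Fin 6 := ((-2, 0), 1)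

/-- The base point for the other direction. -/
def figBase' : Pos × Fin 6 := ((-2, 0), 5)

theorem fig_reach {x : Pos × Fin 6} (hx : fig.Used x) :
    ∃ t : Fin 18, fig.step^[t] figBase = x ∨ fig.mate (fig.step^[t] figBase) = x := by
  refine fig_all (P := fun x => ∃ t : Fin 18, fig.step^[t] figBase = x ∨
    fig.mate (fig.step^[t] figBase) = x) ?_ hx
  decide

theorem fig_reach' {x : Pos × Fin 6} (hx : fig.Used x) :
    ∃ t : Fin 18, fig.step^[t] figBase = x ∨ fig.step^[t] figBase' = x := by
  refine fig_all (P := fun x => ∃ t : Fin 18, fig.step^[t] figBase = x ∨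
    fig.step^[t] figBase' = x) ?_ hx
  decide

theorem figBase_used : fig.Used figBase := by decide

theorem fig_iterate (t : ℕ) : fig.Used (fig.step^[t] figBase) ∧
    Relation.EqvGen fig.Joined figBase (fig.step^[t] figBase) := by
  induction t with
  | zero => exact ⟨figBase_used, Relation.EqvGen.refl _⟩
  | succ t ih =>
    rw [Function.iterate_succ_apply']
    set y := fig.step^[t] figBase
    have h1 : fig.Used (fig.mate y) := Mosaic.used_mate y ih.1
    have h2 : fig.Used (fig.step y) := fig_suitablyConnected _ h1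
    refine ⟨h2, ih.2.trans _ _ _ (Relation.EqvGen.trans _ (fig.mate y) _ ?_ ?_)⟩
    · exact Relation.EqvGen.rel _ _ ⟨ih.1, h1, Or.inr rfl⟩
    · exact Relation.EqvGen.rel _ _ ⟨h1, h2, Or.inl rfl⟩

theorem fig_joined {x : Pos × Fin 6} (hx : fig.Used x) :
    Relation.EqvGen fig.Joined figBase x := by
  obtain ⟨t, rfl | rfl⟩ := fig_reach hx
  · exact (fig_iterate t).2
  · refine (fig_iterate t).2.trans _ _ _ ?_
    exact Relation.EqvGen.rel _ _ ⟨(fig_iterate t).1, hx, Or.inr rfl⟩

theorem fig_oneComponent : fig.OneComponent :=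
  ⟨⟨figBase, figBase_used⟩, fun x y hx hy =>
    ((fig_joined hx).symm).trans _ _ _ (fig_joined hy)⟩

theorem fig_period : Function.minimalPeriod fig.step figBase = 18 := by
  apply Mosaic.minimalPeriod_eq (by norm_num)
  · decide
  · have : ∀ m : Fin 18, 0 < m.val → fig.step^[m.val] figBase ≠ figBase := by decide
    intro m hm hm2
    exact this ⟨m, hm2⟩ hm

theorem fig_period' : Function.minimalPeriod fig.step figBase' = 18 := by
  apply Mosaic.minimalPeriod_eq (by norm_num)
  · decide
  · have : ∀ m : Fin 18, 0 < m.val → fig.step^[m.val] figBase' ≠ figBase' := by decide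
    intro m hm hm2
    exact this ⟨m, hm2⟩ hm

/-- A colouring of the figure-eight knot. -/
def figCol (l : Label) : ZMod 5 :=
  if l.1 = (0, 1) then 0 else if l.1 = (-1, 2) then 1 else if l.1 = (-2, 1) then 2 else 4

theorem fig_word : fig.word figBase =
    [(((0, 1), (1, 2)), true), (((-1, 2), (0, 3)), false), (((-2, 1), (0, 1)), true),
      (((-1, 1), (1, 3)), false), (((-1, 2), (0, 3)), true), (((0, 1), (1, 2)), false),
      (((-1, 1), (1, 3)), true), (((-2, 1), (0, 1)), false)] := by
  unfold Mosaic.word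
  rw [fig_period]
  decide

theorem fig_word' : fig.word figBase' =
    [(((-2, 1), (0, 1)), false), (((-1, 1), (1, 3)), true), (((0, 1), (1, 2)), false),
      (((-1, 2), (0, 3)), true), (((-1, 1), (1, 3)), false), (((-2, 1), (0, 1)), true),
      (((-1, 2), (0, 3)), false), (((0, 1), (1, 2)), true)] := by
  unfold Mosaic.word
  rw [fig_period']
  decide

theorem fig_colorable : Colorable (ZMod 5) (fig.word figBase) := by
  rw [fig_word]
  refine ⟨0, figCol, ?_, (((-1, 2), (0, 3)), false), by simp, by decide⟩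
  decide

theorem fig_colorable' : Colorable (ZMod 5) (fig.word figBase') := by
  rw [fig_word']
  refine ⟨0, figCol, ?_, (((-1, 2), (0, 3)), true), by simp, by decide⟩
  decide

theorem fig_colorable_all {x : Pos × Fin 6} (hx : fig.Used x) :
    Colorable (ZMod 5) (fig.word x) := by
  have h1 : figBase ∈ Function.periodicPts fig.step := by
    apply Function.minimalPeriod_pos_iff_mem_periodicPts.1
    rw [fig_period]
    norm_num
  have h2 : figBase' ∈ Function.periodicPts fig.step := by
    apply Function.minimalPeriod_pos_iff_mem_periodicPts.1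
    rw [fig_period']
    norm_num
  obtain ⟨t, ht | ht⟩ := fig_reach' hx
  · rw [← ht, Mosaic.colorable_word_iterate h1]
    exact fig_colorable
  · rw [← ht, Mosaic.colorable_word_iterate h2]
    exact fig_colorable'

end Pool.Agent.Lib.MP_d1968e_gt
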