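import Pool.Agent.Lib.MP_d1968e_gt.Count

/-!
# A mosaic with triple-crossing interior and `⌈r / 2⌉` components

On the odd sides of the board the boundary tiles join their two inner edges. On the even sides
(which are used) a boundary tile joins its inner edges to its lateral edges, except for
`⌊(r - 2) / 2⌋` tiles of the side `0`, which join the two inner edges and the two lateral edges.
-/

namespace Pool.Agent.Lib.MP_d1968e_gt

/-- The connections of a boundary tile on the side `s`. -/
def bconn (s : Fin 6) (cap corner : Bool) (k : Fin 6) : Fin 6 :=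
  if s.val % 2 = 0 then
    if corner then (if k = s + 3 then s + 2 else if k = s + 2 then s + 3 else k)
    else if cap then
      (if k = s + 3 then s + 4 else if k = s + 4 then s + 3 else
        if k = s + 2 then s + 5 else if k = s + 5 then s + 2 else k)
    else
      (if k = s + 3 then s + 2 else if k = s + 2 then s + 3 else
        if k = s + 4 then s + 5 else if k = s + 5 then s + 4 else k)
  else (if k = s + 3 then s + 4 else if k = s + 4 then s + 3 else k)

theorem bconn_bconn (s : Fin 6) (cap corner : Bool) (k : Fin 6) :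
    bconn s cap corner (bconn s cap corner k) = k := by
  revert s cap corner k
  decide

/-- The exceptional tiles. -/
def capB (r : ℕ) (s : Fin 6) (j : ℕ) : Bool := decide (s = 0 ∧ 1 ≤ j ∧ 2 * j + 2 ≤ r)

theorem sideP_inj {r : ℕ} (hr : 2 ≤ r) {s s' : Fin 6} {j j' : ℕ} (hj : j + 2 ≤ r)
    (hj' : j' + 2 ≤ r) (h : Mosaic.sideP r s j = Mosaic.sideP r s' j') : s = s' ∧ j = j' := by
  unfold Mosaic.sideP at h
  rw [Prod.mk.injEq] at h
  obtain ⟨h1, h2⟩ := h
  fin_cases s <;> fin_cases s' <;> simp [dir] at h1 h2 ⊢ <;> omega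

theorem hexDist_sideP {r : ℕ} (hr : 2 ≤ r) (s : Fin 6) (j : ℕ) (hj : j + 2 ≤ r) :
    hexDist (Mosaic.sideP r s j) ≤ r - 1 ∧ ¬ hexDist (Mosaic.sideP r s j) ≤ r - 2 := by
  rw [hexDist_le_iff, hexDist_le_iff]
  fin_cases s <;> simp [Mosaic.sideP, dir] <;> omega

open Classical in
/-- The connections of the tile at `p`. -/
noncomputable def mconn (r : ℕ) (p : Pos) (k : Fin 6) : Fin 6 :=
  if hexDist p ≤ (r : ℤ) - 2 then k + 3
  else if h : ∃ (s : Fin 6) (j : ℕ), j + 2 ≤ r ∧ p = Mosaic.sideP r s j then
    bconn h.choose (capB r h.choose h.choose_spec.choose)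
      (decide (h.choose_spec.choose = 0)) k
  else k

theorem mconn_in {r : ℕ} {p : Pos} (hp : hexDist p ≤ (r : ℤ) - 2) (k : Fin 6) :
    mconn r p k = k + 3 := by
  unfold mconn
  rw [if_pos hp]

theorem mconn_side {r : ℕ} (hr : 2 ≤ r) (s : Fin 6) (j : ℕ) (hj : j + 2 ≤ r) (k : Fin 6) :
    mconn r (Mosaic.sideP r s j) k = bconn s (capB r s j) (decide (j = 0)) k := by
  have h : ∃ (s' : Fin 6) (j' : ℕ), j' + 2 ≤ r ∧ Mosaic.sideP r s j = Mosaic.sideP r s' j' :=
    ⟨s, j, hj, rfl⟩
  unfold mconn
  rw [if_neg (hexDist_sideP hr s j hj).2, dif_pos h]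
  have h1 := h.choose_spec.choose_spec
  obtain ⟨h2, h3⟩ := sideP_inj hr hj h1.1 h1.2
  rw [← h3, ← h2]

theorem mconn_out {r : ℕ} (hr : 2 ≤ r) {p : Pos} (hp : (r : ℤ) ≤ hexDist p) (k : Fin 6) :
    mconn r p k = k := by
  unfold mconn
  rw [if_neg (by omega), dif_neg]
  rintro ⟨s, j, hj, rfl⟩
  have := (hexDist_sideP hr s j hj).1
  omega

theorem mconn_mconn {r : ℕ} (hr : 2 ≤ r) (p : Pos) (k : Fin 6) :
    mconn r p (mconn r p k) = k := by
  by_cases h1 : hexDist p ≤ (r : ℤ) - 2
  · rw [mconn_in h1, mconn_in h1]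
    revert k
    decide
  · by_cases h2 : hexDist p ≤ (r : ℤ) - 1
    · obtain ⟨s, j, hj, rfl⟩ := Mosaic.exists_side hr h2 h1
      rw [mconn_side hr s j hj, mconn_side hr s j hj, bconn_bconn]
    · rw [mconn_out hr (by omega), mconn_out hr (by omega)]

/-- The mosaic. -/
noncomputable def sharp (r : ℕ) (hr : 2 ≤ r) : Mosaic r where
  tile p :=
    { conn := mconn r p
      conn_conn := mconn_mconn hr p
      upper := fun _ _ => true
      tri := true }
  empty_of_le := fun _ hp k => mconn_out hr hp k

namespace Mosaic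

variable {r : ℕ} {hr : 2 ≤ r}

theorem sharp_mate (x : Pos × Fin 6) : (sharp r hr).mate x = (x.1, mconn r x.1 x.2) := rfl

theorem sharp_used (x : Pos × Fin 6) : (sharp r hr).Used x ↔ mconn r x.1 x.2 ≠ x.2 := Iff.rfl

theorem sharp_used_in {x : Pos × Fin 6} (h : hexDist x.1 ≤ (r : ℤ) - 2) :
    (sharp r hr).Used x := by
  rw [sharp_used, mconn_in h]
  generalize x.2 = k
  revert k
  decide

theorem sharp_used_side (s : Fin 6) (j : ℕ) (hj : j + 2 ≤ r) (k : Fin 6) :
    (sharp r hr).Used (sideP r s j, k) ↔ bconn s (capB r s j) (decide (j = 0)) k ≠ k := by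
  rw [sharp_used]
  show mconn r (sideP r s j) k ≠ k ↔ _
  rw [mconn_side hr s j hj]

theorem bconn_three (s : Fin 6) (c d : Bool) : bconn s c d (s + 3) ≠ s + 3 := by
  revert s c d
  decide

theorem bconn_four (s : Fin 6) (c : Bool) : bconn s c false (s + 4) ≠ s + 4 := by
  revert s c
  decide

theorem bconn_two {s : Fin 6} (hs : s.val % 2 = 0) (c d : Bool) :
    bconn s c d (s + 2) ≠ s + 2 := by
  revert s c d
  decide

theorem bconn_five {s : Fin 6} (hs : s.val % 2 = 0) (c : Bool) :
    bconn s c false (s + 5) ≠ s + 5 := by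
  revert s c
  decide

theorem bconn_four_odd {s : Fin 6} (hs : ¬ s.val % 2 = 0) (c d : Bool) :
    bconn s c d (s + 4) ≠ s + 4 := by
  revert s c d
  decide

theorem opp_three (s : Fin 6) (j : ℕ) (hj : j + 2 ≤ r) :
    hexDist (opp (sideP r s j, s + 3)).1 ≤ (r : ℤ) - 2 := by
  rw [hexDist_le_iff]
  fin_cases s <;> simp [opp, sideP, dir] <;> omega

theorem opp_four (s : Fin 6) (j : ℕ) (h1 : 1 ≤ j) (hj : j + 2 ≤ r) :
    hexDist (opp (sideP r s j, s + 4)).1 ≤ (r : ℤ) - 2 := by
  rw [hexDist_le_iff]
  fin_cases s <;> simp [opp, sideP, dir] <;> omega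

theorem even_or (s : Fin 6) (hs : ¬ s.val % 2 = 0) : (s + 5).val % 2 = 0 := by
  revert s
  decide

theorem odd_succ (s : Fin 6) (hs : s.val % 2 = 0) : ¬ (s + 1).val % 2 = 0 := by
  revert s
  decide

theorem sharp_suitablyConnected : (sharp r hr).SuitablyConnected := by
  intro x hx
  by_cases h1 : hexDist x.1 ≤ (r : ℤ) - 2
  · by_cases h2 : hexDist (opp x).1 ≤ (r : ℤ) - 2
    · exact sharp_used_in h2
    · have h3 : hexDist (opp x).1 ≤ (r : ℤ) - 1 := by
        rw [hexDist_le_iff] at h1 ⊢
        obtain ⟨⟨a, b⟩, k⟩ := x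
        fin_cases k <;> simp [opp, dir] at h1 ⊢ <;> omega
      obtain ⟨s, j, hj, hp⟩ := exists_side hr h3 h2
      have h4 : opp x = (sideP r s j, (opp x).2) := Prod.ext hp rfl
      have h5 : opp (sideP r s j, (opp x).2) = x := by
        rw [← h4, opp_opp]
      have h6 : hexDist (opp (sideP r s j, (opp x).2)).1 ≤ (r : ℤ) - 2 := by
        rw [h5]
        exact h1
      rw [h4, sharp_used_side s j hj]
      generalize (opp x).2 = l at h6
      have h7 : l = s + 3 ∨ (l = s + 4 ∧ 1 ≤ j) := by
        rw [hexDist_le_iff] at h6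
        rcases shift_cases s l with h | h | h | h | h | h
        · exfalso
          subst h
          fin_cases l <;> simp [opp, sideP, dir] at h6 <;> omega
        · exfalso
          subst h
          fin_cases s <;> simp [opp, sideP, dir] at h6 <;> omega
        · exfalso
          subst h
          fin_cases s <;> simp [opp, sideP, dir] at h6 <;> omega
        · exact Or.inl h
        · refine Or.inr ⟨h, ?_⟩
          subst h
          by_contra hcon
          have hj0 : j = 0 := by omega
          subst hj0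
          fin_cases s <;> simp [opp, sideP, dir] at h6 <;> omega
        · exfalso
          subst h
          fin_cases s <;> simp [opp, sideP, dir] at h6 <;> omega
      rcases h7 with rfl | ⟨rfl, hj1⟩
      · exact bconn_three _ _ _
      · rw [decide_eq_false (by omega : ¬ j = 0)]
        exact bconn_four _ _
  · have h2 : hexDist x.1 ≤ (r : ℤ) - 1 := by
      by_contra hcon
      exact hx (mconn_out hr (by omega) x.2)
    obtain ⟨s, j, hj, hp⟩ := exists_side hr h2 h1
    obtain ⟨p, k⟩ := x
    simp only at hp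
    subst hp
    rw [sharp_used_side s j hj] at hx
    rcases shift_cases s k with h | h | h | h | h | h
    · exfalso
      subst h
      apply hx
      generalize capB r k j = c
      generalize decide (j = 0) = d
      clear hx h1 h2 hj
      revert k c d
      decide
    · exfalso
      subst h
      apply hx
      generalize capB r s j = c
      generalize decide (j = 0) = d
      clear hx h1 h2 hj
      revert s c d
      decide
    · subst h
      have hs : s.val % 2 = 0 := by
        by_contra hcon
        apply hx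
        generalize capB r s j = c
        generalize decide (j = 0) = d
        clear hx h1 h2 hj
        revert s c d
        decide
      rw [opp_side]
      by_cases hj2 : j + 3 ≤ r
      · have h3 := (sharp_used_side (hr := hr) s (j + 1) (by omega) (s + 5)).2 (by
          rw [decide_eq_false (by omega : ¬ j + 1 = 0)]
          exact bconn_five hs _)
        push_cast at h3
        exact h3
      · have h3 : (j : ℤ) + 1 = r - 1 := by omega
        rw [h3, side_corner]
        have h4 := (sharp_used_side (hr := hr) (s + 1) 0 (by omega) (s + 1 + 4)).2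
          (bconn_four_odd (odd_succ s hs) _ _)
        rw [Nat.cast_zero] at h4
        rw [show s + 5 = s + 1 + 4 by rw [add_assoc]; rfl]
        exact h4
    · subst h
      exact sharp_used_in (opp_three s j hj)
    · subst h
      by_cases hj0 : j = 0
      · subst hj0
        have hs : ¬ s.val % 2 = 0 := by
          intro hcon
          apply hx
          generalize capB r s 0 = c
          clear hx h1 h2
          revert s c
          decide
        have h3 : (sideP r s (0 : ℕ), s + 4) = opp (sideP r (s + 5) ((r : ℤ) - 2), s + 5 + 2) := by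
          rw [opp_side, show (r : ℤ) - 2 + 1 = r - 1 by ring, side_corner,
            show s + 5 + 1 = s by rw [add_assoc]; exact add_zero s,
            show s + 5 + 5 = s + 4 by rw [add_assoc]; rfl]
          simp
        rw [h3, opp_opp]
        have h4 := (sharp_used_side (hr := hr) (s + 5) (r - 2) (by omega) (s + 5 + 2)).2
          (bconn_two (even_or s hs) _ _)
        rw [show ((r - 2 : ℕ) : ℤ) = (r : ℤ) - 2 by omega] at h4
        exact h4
      · exact sharp_used_in (opp_four s j (by omega) hj)
    · subst h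
      have hj0 : ¬ j = 0 := by
        rintro rfl
        apply hx
        generalize capB r s 0 = c
        clear hx h1 h2 hj
        revert s c
        decide
      have hs : s.val % 2 = 0 := by
        by_contra hcon
        apply hx
        generalize capB r s j = c
        generalize decide (j = 0) = d
        clear hx h1 h2 hj hj0
        revert s c d
        decide
      have h3 : (sideP r s (j : ℤ), s + 5) = opp (sideP r s ((j - 1 : ℕ) : ℤ), s + 2) := by
        rw [opp_side, show ((j - 1 : ℕ) : ℤ) + 1 = j by omega]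
      rw [h3, opp_opp]
      exact (sharp_used_side (hr := hr) s (j - 1) (by omega) (s + 2)).2 (bconn_two hs _ _)

theorem sharp_allTriple : (sharp r hr).AllTriple := by
  intro p hp k
  exact mconn_in (by omega) k

/-- Joined by a path of arcs. -/
def J (r : ℕ) (hr : 2 ≤ r) (x y : Pos × Fin 6) : Prop :=
  Relation.EqvGen (sharp r hr).Joined x y

theorem J.refl (x : Pos × Fin 6) : J r hr x x := Relation.EqvGen.refl _

theorem J.symm {x y : Pos × Fin 6} (h : J r hr x y) : J r hr y x :=
  Relation.EqvGen.symm _ _ h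

theorem J.trans {x y z : Pos × Fin 6} (h : J r hr x y) (h2 : J r hr y z) : J r hr x z :=
  Relation.EqvGen.trans _ _ _ h h2

theorem J.opp {x : Pos × Fin 6} (h : (sharp r hr).Used x) : J r hr x (Mosaic.opp x) :=
  Relation.EqvGen.rel _ _ ⟨h, sharp_suitablyConnected _ h, Or.inl rfl⟩

theorem J.mate {x : Pos × Fin 6} (h : (sharp r hr).Used x) :
    J r hr x ((sharp r hr).mate x) :=
  Relation.EqvGen.rel _ _ ⟨h, used_mate x h, Or.inr rfl⟩

/-- The point at distance `t` on the line that starts at the tile `j` of the side `s`. -/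
def lineP (r : ℕ) (s : Fin 6) (j t : ℤ) : Pos :=
  (((r : ℤ) - 1 - t) * (dir s).1 + j * (dir (s + 2)).1,
    ((r : ℤ) - 1 - t) * (dir s).2 + j * (dir (s + 2)).2)

theorem lineP_zero (r : ℕ) (s : Fin 6) (j : ℤ) : lineP r s j 0 = sideP r s j := by
  unfold lineP sideP
  simp

theorem opp_lineP (r : ℕ) (s : Fin 6) (j t : ℤ) :
    opp (lineP r s j t, s + 3) = (lineP r s j (t + 1), s) := by
  fin_cases s <;> simp [opp, lineP, dir] <;> ring_nf <;> simp

theorem lineP_in (s : Fin 6) (j t : ℕ) (hj : j + 2 ≤ r) (h1 : 1 ≤ t)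
    (h2 : t + j + 3 ≤ 2 * r) : hexDist (lineP r s j t) ≤ (r : ℤ) - 2 := by
  rw [hexDist_le_iff]
  fin_cases s <;> simp [lineP, dir] <;> omega

theorem lineP_end (s : Fin 6) (j : ℤ) :
    lineP r s j (2 * ((r : ℤ) - 1) - j) = sideP r (s + 2) ((r : ℤ) - 1 - j) := by
  fin_cases s <;> simp [lineP, sideP, dir] <;> (try constructor) <;> ring

/-- The inner end `s + 3` of the tile `j` of the side `s`. -/
def endB (r : ℕ) (s : Fin 6) (j : ℤ) : Pos × Fin 6 := (sideP r s j, s + 3)

/-- The inner end `s + 4` of the tile `j` of the side `s`. -/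
def endC (r : ℕ) (s : Fin 6) (j : ℤ) : Pos × Fin 6 := (sideP r s j, s + 4)

theorem used_endB (s : Fin 6) (j : ℕ) (hj : j + 2 ≤ r) :
    (sharp r hr).Used (endB r s j) :=
  (sharp_used_side (hr := hr) s j hj (s + 3)).2 (bconn_three _ _ _)

theorem endC_last (r : ℕ) (s : Fin 6) : endC r s ((r : ℤ) - 1) = endB r (s + 1) 0 := by
  unfold endC endB
  rw [side_corner, show s + 1 + 3 = s + 4 by rw [add_assoc]; rfl]

theorem line_joined (s : Fin 6) (j t : ℕ) (hj : j + 2 ≤ r) (h1 : 1 ≤ t)
    (h2 : t + j + 2 ≤ 2 * r) : J r hr (endB r s j) (lineP r s j t, s) := by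
  induction t with
  | zero => omega
  | succ t ih =>
    by_cases ht : t = 0
    · subst ht
      have h3 := J.opp (used_endB (hr := hr) s j hj)
      unfold endB at h3 ⊢
      rw [← lineP_zero r s j, opp_lineP] at h3
      rw [← lineP_zero r s j]
      simpa using h3
    · have h3 := ih (by omega) (by omega)
      have h4 : hexDist (lineP r s j t) ≤ (r : ℤ) - 2 := lineP_in s j t hj (by omega) (by omega)
      have h5 : (sharp r hr).Used (lineP r s j t, s) := sharp_used_in h4
      have h6 := J.mate h5
      rw [sharp_mate] at h6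
      simp only [mconn_in h4] at h6
      have h7 : (sharp r hr).Used (lineP r s j t, s + 3) := sharp_used_in h4
      have h8 := J.opp h7
      rw [opp_lineP] at h8
      push_cast
      exact h3.trans (h6.trans h8)

/-- The two ends of a line. -/
theorem line_ends (s : Fin 6) (j : ℕ) (hj : j + 2 ≤ r) :
    J r hr (endB r s j) (endC r (s + 2) ((r : ℤ) - 1 - j)) := by
  have h := line_joined (hr := hr) s j (2 * (r - 1) - j) hj (by omega) (by omega)
  rw [show ((2 * (r - 1) - j : ℕ) : ℤ) = 2 * ((r : ℤ) - 1) - j by omega, lineP_end] at h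
  unfold endC
  rw [show s + 2 + 4 = s by rw [add_assoc]; exact add_zero s]
  exact h

/-- Every interior point is on a line. -/
theorem exists_line {p : Pos} (hp : hexDist p ≤ (r : ℤ) - 2) (k : Fin 6) :
    ∃ (s : Fin 6) (j t : ℕ), (k = s ∨ k = s + 3) ∧ j + 2 ≤ r ∧ 1 ≤ t ∧ t + j + 3 ≤ 2 * r ∧
      p = lineP r s j t := by
  obtain ⟨a, b⟩ := p
  rw [hexDist_le_iff] at hp
  simp only at hp
  have key : ∀ s : Fin 6, (k = s ∨ k = s + 3) → ∀ j t : ℤ, 0 ≤ j → j + 2 ≤ r → 1 ≤ t →
      t + j + 3 ≤ 2 * r → ((a, b) : Pos) = lineP r s j t → ∃ (s : Fin 6) (j t : ℕ),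
      (k = s ∨ k = s + 3) ∧ j + 2 ≤ r ∧ 1 ≤ t ∧ t + j + 3 ≤ 2 * r ∧
      ((a, b) : Pos) = lineP r s j t := by
    intro s hs j t h1 h2 h3 h4 h5
    refine ⟨s, j.toNat, t.toNat, hs, by omega, by omega, by omega, ?_⟩
    rw [h5, show ((j.toNat : ℕ) : ℤ) = j by omega, show ((t.toNat : ℕ) : ℤ) = t by omega]
  have hd : ∀ s : Fin 6, s + 3 + 3 = s := by decide
  fin_cases k
  · rcases le_total 0 b with h | h
    · exact key 0 (Or.inl rfl) b (r - 1 - (a + b)) h (by omega) (by omega) (by omega)
        (by simp [lineP, dir])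
    · exact key 3 (Or.inr rfl) (-b) (r - 1 + (a + b)) (by omega) (by omega) (by omega)
        (by omega) (by simp [lineP, dir])
  · rcases le_total 0 (-a) with h | h
    · exact key 1 (Or.inl rfl) (-a) (r - 1 - b) h (by omega) (by omega) (by omega)
        (by simp [lineP, dir])
    · exact key 4 (Or.inr rfl) a (r - 1 + b) (by omega) (by omega) (by omega)
        (by omega) (by simp [lineP, dir])
  · rcases le_total 0 (-(a + b)) with h | h
    · exact key 2 (Or.inl rfl) (-(a + b)) (r - 1 + a) h (by omega) (by omega) (by omega)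
        (by simp [lineP, dir])
    · exact key 5 (Or.inr rfl) (a + b) (r - 1 - a) (by omega) (by omega) (by omega)
        (by omega) (by simp [lineP, dir])
  · rcases le_total 0 b with h | h
    · exact key 0 (Or.inr rfl) b (r - 1 - (a + b)) h (by omega) (by omega) (by omega)
        (by simp [lineP, dir])
    · exact key 3 (Or.inl rfl) (-b) (r - 1 + (a + b)) (by omega) (by omega) (by omega)
        (by omega) (by simp [lineP, dir])
  · rcases le_total 0 (-a) with h | h
    · exact key 1 (Or.inr rfl) (-a) (r - 1 - b) h (by omega) (by omega) (by omega)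
        (by simp [lineP, dir])
    · exact key 4 (Or.inl rfl) a (r - 1 + b) (by omega) (by omega) (by omega)
        (by omega) (by simp [lineP, dir])
  · rcases le_total 0 (-(a + b)) with h | h
    · exact key 2 (Or.inr rfl) (-(a + b)) (r - 1 + a) h (by omega) (by omega) (by omega)
        (by simp [lineP, dir])
    · exact key 5 (Or.inl rfl) (a + b) (r - 1 - a) (by omega) (by omega) (by omega)
        (by omega) (by simp [lineP, dir])

end Mosaic

end Pool.Agent.Lib.MP_d1968e_gt
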