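import Pool.Agent.Lib.MP_d1968e_gt.Sharp

/-!
# The components of the mosaic `sharp`
-/

namespace Pool.Agent.Lib.MP_d1968e_gt

namespace Mosaic

variable {r : ℕ} {hr : 2 ≤ r}

theorem used_endC (s : Fin 6) (j : ℕ) (h1 : 1 ≤ j) (hj : j + 2 ≤ r) :
    (sharp r hr).Used (endC r s j) := by
  refine (sharp_used_side (hr := hr) s j hj (s + 4)).2 ?_
  rw [decide_eq_false (by omega : ¬ j = 0)]
  exact bconn_four _ _

theorem cJoin (s : Fin 6) (i : ℕ) (h1 : 1 ≤ i) (hi : i + 1 ≤ r) :
    J r hr (endC r s i) (endB r (s + 4) ((r - 1 - i : ℕ) : ℤ)) := by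
  have h := line_ends (hr := hr) (s + 4) (r - 1 - i) (by omega)
  rw [show s + 4 + 2 = s by rw [add_assoc]; exact add_zero s,
    show (r : ℤ) - 1 - ((r - 1 - i : ℕ) : ℤ) = i by omega] at h
  exact h.symm

theorem bconn_cap {s : Fin 6} (h : ¬ s.val % 2 = 0) (c d : Bool) :
    bconn s c d (s + 3) = s + 4 := by
  revert s c d
  decide

theorem bconn_plain {s : Fin 6} (h : s.val % 2 = 0) (c d : Bool) (hc : d = true ∨ c = false) :
    bconn s c d (s + 3) = s + 2 := by
  revert s c d
  decide

theorem bconn_plain5 {s : Fin 6} (h : s.val % 2 = 0) : bconn s false false (s + 5) = s + 4 := by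
  revert s
  decide

theorem bconn_corner {s : Fin 6} (h : ¬ s.val % 2 = 0) (c d : Bool) :
    bconn s c d (s + 4) = s + 3 := by
  revert s c d
  decide

theorem mate_side (s : Fin 6) (j : ℕ) (hj : j + 2 ≤ r) (k : Fin 6) :
    (sharp r hr).mate (sideP r s j, k) =
      (sideP r s j, bconn s (capB r s j) (decide (j = 0)) k) := by
  rw [sharp_mate]
  show (sideP r s j, mconn r (sideP r s j) k) = _
  rw [mconn_side hr s j hj]

/-- Unused sides. -/
theorem bJoin_odd {s : Fin 6} (hs : ¬ s.val % 2 = 0) (j : ℕ) (hj : j + 2 ≤ r) :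
    J r hr (endB r s j) (endC r s j) := by
  have h := J.mate (used_endB (hr := hr) s j hj)
  unfold endB at h
  rw [mate_side s j hj, bconn_cap hs] at h
  exact h

/-- The plain tiles of the used sides. -/
theorem bJoin_a {s : Fin 6} (hs : s.val % 2 = 0) (j : ℕ) (hj : j + 2 ≤ r)
    (hc : capB r s j = false) : J r hr (endB r s j) (sideP r s j, s + 2) := by
  have h := J.mate (used_endB (hr := hr) s j hj)
  unfold endB at h
  rw [mate_side s j hj, bconn_plain hs _ _ (Or.inr hc)] at h
  exact h

theorem used_a {s : Fin 6} (hs : s.val % 2 = 0) (j : ℕ) (hj : j + 2 ≤ r) :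
    (sharp r hr).Used (sideP r s j, s + 2) :=
  (sharp_used_side (hr := hr) s j hj (s + 2)).2 (bconn_two hs _ _)

theorem aJoin {s : Fin 6} (hs : s.val % 2 = 0) (j : ℕ) (hj : j + 2 ≤ r) :
    J r hr (sideP r s j, s + 2) (sideP r s ((j + 1 : ℕ) : ℤ), s + 5) := by
  have h := J.opp (used_a (hr := hr) hs j hj)
  rw [opp_side] at h
  push_cast
  exact h

theorem bJoin_even {s : Fin 6} (hs : s.val % 2 = 0) (j : ℕ) (hj : j + 2 ≤ r)
    (hc : capB r s j = false) (hc' : capB r s (j + 1) = false) :
    J r hr (endB r s j) (endC r s ((j + 1 : ℕ) : ℤ)) := by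
  refine (bJoin_a hs j hj hc).trans ((aJoin hs j hj).trans ?_)
  by_cases hj2 : j + 3 ≤ r
  · have hu : (sharp r hr).Used (sideP r s ((j + 1 : ℕ) : ℤ), s + 5) := by
      refine (sharp_used_side (hr := hr) s (j + 1) (by omega) (s + 5)).2 ?_
      rw [decide_eq_false (by omega : ¬ j + 1 = 0)]
      exact bconn_five hs _
    have h := J.mate hu
    rw [mate_side s (j + 1) (by omega), decide_eq_false (by omega : ¬ j + 1 = 0), hc',
      bconn_plain5 hs] at h
    exact h
  · have h3 : ((j + 1 : ℕ) : ℤ) = (r : ℤ) - 1 := by omega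
    rw [h3, endC_last, side_corner]
    have hs1 := odd_succ s hs
    have hu : (sharp r hr).Used (sideP r (s + 1) (0 : ℕ), s + 1 + 4) :=
      (sharp_used_side (hr := hr) (s + 1) 0 (by omega) (s + 1 + 4)).2
        (bconn_four_odd hs1 _ _)
    have h := J.mate hu
    rw [mate_side (s + 1) 0 (by omega), bconn_corner hs1] at h
    rw [Nat.cast_zero] at h
    rw [show s + 5 = s + 1 + 4 by rw [add_assoc]; rfl]
    exact h

theorem capB_ne {s : Fin 6} (hs : s ≠ 0) (j : ℕ) : capB r s j = false := by
  unfold capB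
  rw [decide_eq_false]
  rintro ⟨h, -⟩
  exact hs h

theorem capB_zero {j : ℕ} (hj : ¬ (1 ≤ j ∧ 2 * j + 2 ≤ r)) : capB r 0 j = false := by
  unfold capB
  rw [decide_eq_false]
  rintro ⟨-, h⟩
  exact hj h

theorem capB_true {j : ℕ} (hj : 1 ≤ j ∧ 2 * j + 2 ≤ r) : capB r 0 j = true := by
  unfold capB
  rw [decide_eq_true]
  exact ⟨rfl, hj⟩

theorem two_zero (j : ℕ) (hj : j + 2 ≤ r) :
    J r hr (endB r 2 j) (endB r 0 ((r - 2 - j : ℕ) : ℤ)) := by
  have h := (bJoin_even (hr := hr) (s := 2) (by decide) j hj (capB_ne (by decide) _)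
    (capB_ne (by decide) _)).trans (cJoin 2 (j + 1) (by omega) (by omega))
  rw [show r - 1 - (j + 1) = r - 2 - j by omega] at h
  exact h

theorem four_zero (j : ℕ) (hj : j + 2 ≤ r) : J r hr (endB r 4 j) (endB r 0 j) := by
  have h := (bJoin_even (hr := hr) (s := 4) (by decide) j hj (capB_ne (by decide) _)
    (capB_ne (by decide) _)).trans (cJoin 4 (j + 1) (by omega) (by omega))
  rw [show r - 1 - (j + 1) = r - 2 - j by omega] at h
  have h2 := two_zero (hr := hr) (r - 2 - j) (by omega)
  rw [show r - 2 - (r - 2 - j) = j by omega] at h2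
  exact h.trans h2

theorem c_zero (i : ℕ) (h1 : 1 ≤ i) (hi : i + 1 ≤ r) :
    J r hr (endC r 0 i) (endB r 0 ((r - 1 - i : ℕ) : ℤ)) :=
  (cJoin 0 i h1 hi).trans (four_zero (r - 1 - i) (by omega))

theorem v_cap (j : ℕ) (h1 : 1 ≤ j) (hj : 2 * j + 2 ≤ r) :
    J r hr (endB r 0 j) (endB r 0 ((r - 1 - j : ℕ) : ℤ)) := by
  have h := J.mate (used_endB (hr := hr) 0 j (by omega))
  unfold endB at h
  rw [mate_side 0 j (by omega), capB_true ⟨h1, hj⟩, decide_eq_false (by omega : ¬ j = 0)] at h
  exact J.trans h (c_zero j h1 (by omega))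

theorem v_plain (j : ℕ) (h1 : ¬ (2 * j + 2 ≤ r)) (hj : j + 2 ≤ r) :
    J r hr (endB r 0 j) (endB r 0 ((r - 2 - j : ℕ) : ℤ)) := by
  have h := (bJoin_even (hr := hr) (s := 0) (by decide) j hj (capB_zero (by omega))
    (capB_zero (by omega))).trans (c_zero (j + 1) (by omega) (by omega))
  rw [show r - 1 - (j + 1) = r - 2 - j by omega] at h
  exact h

theorem v_small (j : ℕ) (hj : 2 * j + 2 ≤ r) : J r hr (endB r 0 (0 : ℕ)) (endB r 0 j) := by
  induction j with
  | zero => exact J.refl _
  | succ j ih =>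
    have h1 := ih (by omega)
    have h2 := v_cap (hr := hr) (j + 1) (by omega) hj
    have h3 := v_plain (hr := hr) (r - 1 - (j + 1)) (by omega) (by omega)
    rw [show r - 2 - (r - 1 - (j + 1)) = j by omega] at h3
    exact h1.trans (h3.symm.trans h2.symm)

theorem v_all (j : ℕ) (hj : j + 2 ≤ r) : J r hr (endB r 0 (0 : ℕ)) (endB r 0 j) := by
  by_cases h : 2 * j + 2 ≤ r
  · exact v_small j h
  · exact (v_small (r - 2 - j) (by omega)).trans (v_plain j h hj).symm

theorem even_cases (s : Fin 6) (hs : s.val % 2 = 0) : s = 0 ∨ s = 2 ∨ s = 4 := by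
  revert s
  decide

theorem odd_cases (s : Fin 6) (hs : ¬ s.val % 2 = 0) : s = 1 ∨ s = 3 ∨ s = 5 := by
  revert s
  decide

/-- The inner ends on the used sides are joined. -/
theorem main_b {s : Fin 6} (hs : s.val % 2 = 0) (j : ℕ) (hj : j + 2 ≤ r) :
    J r hr (endB r 0 (0 : ℕ)) (endB r s j) := by
  rcases even_cases s hs with rfl | rfl | rfl
  · exact v_all j hj
  · exact (v_all (r - 2 - j) (by omega)).trans (two_zero j hj).symm
  · exact (v_all j hj).trans (four_zero j hj).symm

theorem main_c {s : Fin 6} (hs : s.val % 2 = 0) (i : ℕ) (h1 : 1 ≤ i) (hi : i + 1 ≤ r) :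
    J r hr (endB r 0 (0 : ℕ)) (endC r s i) := by
  have hs4 : (s + 4).val % 2 = 0 := by
    revert s
    decide
  exact (main_b hs4 (r - 1 - i) (by omega)).trans (cJoin s i h1 hi).symm

theorem main_corner {s : Fin 6} (hs : ¬ s.val % 2 = 0) :
    J r hr (endB r 0 (0 : ℕ)) (endB r s (0 : ℕ)) := by
  have h := main_c (hr := hr) (even_or s hs) (r - 1) (by omega) (by omega)
  rw [show ((r - 1 : ℕ) : ℤ) = (r : ℤ) - 1 by omega, endC_last,
    show s + 5 + 1 = s by rw [add_assoc]; exact add_zero s] at h
  rw [Nat.cast_zero] at h ⊢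
  exact h

theorem main_a {s : Fin 6} (hs : s.val % 2 = 0) (j : ℕ) (hj : j + 2 ≤ r) :
    J r hr (endB r 0 (0 : ℕ)) (sideP r s j, s + 2) := by
  induction j with
  | zero =>
    refine (main_b hs 0 hj).trans (bJoin_a hs 0 hj ?_)
    by_cases h : s = 0
    · subst h
      exact capB_zero (by omega)
    · exact capB_ne h _
  | succ j ih =>
    by_cases hc : capB r s (j + 1) = false
    · exact (main_b hs (j + 1) hj).trans (bJoin_a hs (j + 1) hj hc)
    · have hc2 : capB r s (j + 1) = true := by
        revert hc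
        cases capB r s (j + 1) <;> simp
      have hs0 : s = 0 := by
        by_contra hne
        rw [capB_ne hne] at hc2
        exact absurd hc2 (by decide)
      subst hs0
      have h := J.mate (used_a (hr := hr) (s := 0) (by decide) (j + 1) hj)
      rw [mate_side 0 (j + 1) hj, hc2, decide_eq_false (by omega : ¬ j + 1 = 0)] at h
      exact (ih (by omega)).trans ((aJoin (by decide) j (by omega)).trans h.symm)

/-- The lines which join the unused sides. -/
theorem three_one (j : ℕ) (h1 : 1 ≤ j) (hj : j + 2 ≤ r) :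
    J r hr (endB r 3 j) (endB r 1 ((r - 1 - j : ℕ) : ℤ)) :=
  (bJoin_odd (by decide) j hj).trans (cJoin 3 j h1 (by omega))

theorem five_three (j : ℕ) (h1 : 1 ≤ j) (hj : j + 2 ≤ r) :
    J r hr (endB r 5 j) (endB r 3 ((r - 1 - j : ℕ) : ℤ)) :=
  (bJoin_odd (by decide) j hj).trans (cJoin 5 j h1 (by omega))

theorem one_five (j : ℕ) (h1 : 1 ≤ j) (hj : j + 2 ≤ r) :
    J r hr (endB r 1 j) (endB r 5 ((r - 1 - j : ℕ) : ℤ)) :=
  (bJoin_odd (by decide) j hj).trans (cJoin 1 j h1 (by omega))

theorem five_one (j : ℕ) (h1 : 1 ≤ j) (hj : j + 2 ≤ r) :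
    J r hr (endB r 5 j) (endB r 1 j) := by
  have h := (five_three (hr := hr) j h1 hj).trans (three_one (r - 1 - j) (by omega) (by omega))
  rwa [show r - 1 - (r - 1 - j) = j by omega] at h

theorem one_one (j : ℕ) (h1 : 1 ≤ j) (hj : j + 2 ≤ r) :
    J r hr (endB r 1 j) (endB r 1 ((r - 1 - j : ℕ) : ℤ)) :=
  (one_five j h1 hj).trans (five_one (r - 1 - j) (by omega) (by omega))

/-- The representatives of the components. -/
def reps (r : ℕ) (i : Fin ((r + 1) / 2)) : Pos × Fin 6 :=
  if i.val = 0 then endB r 0 (0 : ℕ) else endB r 1 i.val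

/-- `x` is joined to a representative. -/
def Good (r : ℕ) (hr : 2 ≤ r) (x : Pos × Fin 6) : Prop := ∃ i, J r hr (reps r i) x

theorem good_main {x : Pos × Fin 6} (h : J r hr (endB r 0 (0 : ℕ)) x) : Good r hr x :=
  ⟨⟨0, by omega⟩, by unfold reps; simpa using h⟩

theorem good_one (j : ℕ) (h1 : 1 ≤ j) (hj : j + 2 ≤ r) {x : Pos × Fin 6}
    (h : J r hr (endB r 1 j) x) : Good r hr x := by
  by_cases h2 : 2 * j + 1 ≤ r
  · refine ⟨⟨j, by omega⟩, ?_⟩
    unfold reps
    rw [if_neg (by simp; omega)]
    exact h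
  · refine ⟨⟨r - 1 - j, by omega⟩, ?_⟩
    unfold reps
    rw [if_neg (by simp; omega)]
    exact (one_one j h1 hj).symm.trans h

theorem good_odd {s : Fin 6} (hs : ¬ s.val % 2 = 0) (j : ℕ) (hj : j + 2 ≤ r)
    {x : Pos × Fin 6} (h : J r hr (endB r s j) x) : Good r hr x := by
  by_cases h0 : j = 0
  · subst h0
    exact good_main ((main_corner hs).trans h)
  · have h1 : 1 ≤ j := by omega
    rcases odd_cases s hs with rfl | rfl | rfl
    · exact good_one j h1 hj h
    · exact good_one (r - 1 - j) (by omega) (by omega) ((three_one j h1 hj).symm.trans h)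
    · exact good_one j h1 hj ((five_one j h1 hj).symm.trans h)

theorem good_b (s : Fin 6) (j : ℕ) (hj : j + 2 ≤ r) {x : Pos × Fin 6}
    (h : J r hr (endB r s j) x) : Good r hr x := by
  by_cases hs : s.val % 2 = 0
  · exact good_main ((main_b hs j hj).trans h)
  · exact good_odd hs j hj h

theorem good_of_used {x : Pos × Fin 6} (hx : (sharp r hr).Used x) : Good r hr x := by
  by_cases h1 : hexDist x.1 ≤ (r : ℤ) - 2
  · obtain ⟨s, j, t, hk, hj, ht1, ht2, hp⟩ := exists_line h1 x.2
    have h2 := line_joined (hr := hr) s j t hj ht1 (by omega)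
    rw [← hp] at h2
    rcases hk with hk | hk
    · refine good_b s j hj ?_
      have h5 : x = (x.1, s) := Prod.ext rfl hk
      rw [h5]
      exact h2
    · refine good_b s j hj (h2.trans ?_)
      have h3 : (sharp r hr).Used (x.1, s) := sharp_used_in h1
      have h4 := J.mate h3
      rw [sharp_mate] at h4
      simp only [mconn_in h1] at h4
      have h5 : x = (x.1, s + 3) := Prod.ext rfl hk
      rw [h5]
      exact h4
  · have h2 : hexDist x.1 ≤ (r : ℤ) - 1 := by
      by_contra hcon
      exact hx (mconn_out hr (by omega) x.2)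
    obtain ⟨s, j, hj, hp⟩ := exists_side hr h2 h1
    obtain ⟨p, k⟩ := x
    simp only at hp
    subst hp
    rw [sharp_used_side s j hj] at hx
    rcases shift_cases s k with h | h | h | h | h | h
    · exfalso
      subst h
      apply hx
      generalize capB r k j = c
      generalize decide (j = 0) = d
      clear hx h1 h2 hj
      revert k c d
      decide
    · exfalso
      subst h
      apply hx
      generalize capB r s j = c
      generalize decide (j = 0) = d
      clear hx h1 h2 hj
      revert s c d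
      decide
    · subst h
      have hs : s.val % 2 = 0 := by
        by_contra hcon
        apply hx
        generalize capB r s j = c
        generalize decide (j = 0) = d
        clear hx h1 h2 hj
        revert s c d
        decide
      exact good_main (main_a hs j hj)
    · subst h
      exact good_b s j hj (J.refl _)
    · subst h
      by_cases hs : s.val % 2 = 0
      · have hj0 : ¬ j = 0 := by
          rintro rfl
          apply hx
          generalize capB r s 0 = c
          clear hx h1 h2 hj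
          revert s c
          decide
        exact good_main (main_c hs j (by omega) (by omega))
      · exact good_odd hs j hj (bJoin_odd hs j hj)
    · subst h
      have hj0 : ¬ j = 0 := by
        rintro rfl
        apply hx
        generalize capB r s 0 = c
        clear hx h1 h2 hj
        revert s c
        decide
      have hs : s.val % 2 = 0 := by
        by_contra hcon
        apply hx
        generalize capB r s j = c
        generalize decide (j = 0) = d
        clear hx h1 h2 hj hj0
        revert s c d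
        decide
      have h3 := (main_a (hr := hr) hs (j - 1) (by omega)).trans (aJoin hs (j - 1) (by omega))
      rw [show j - 1 + 1 = j by omega] at h3
      exact good_main h3

theorem used_reps (i : Fin ((r + 1) / 2)) : (sharp r hr).Used (reps r i) := by
  have := i.isLt
  unfold reps
  split_ifs with h
  · exact used_endB 0 0 (by omega)
  · exact used_endB 1 i.val (by omega)

/-- For every `r ≥ 2` there is a suitably connected mosaic of size `r` whose interior tiles are
triple-crossing tiles, with at most `⌈r / 2⌉` components. -/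
theorem exists_sharp (r : ℕ) (hr : 2 ≤ r) : ∃ M : Mosaic r, M.SuitablyConnected ∧ M.AllTriple ∧
    ∃ f : Fin ((r + 1) / 2) → Pos × Fin 6, (∀ i, M.Used (f i)) ∧
      ∀ x, M.Used x → ∃ i, Relation.EqvGen M.Joined (f i) x :=
  ⟨sharp r hr, sharp_suitablyConnected, sharp_allTriple, reps r, used_reps,
    fun _ hx => good_of_used hx⟩

end Mosaic

end Pool.Agent.Lib.MP_d1968e_gt
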