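import Pool.Agent.Lib.MP_d1968e_gt.Uncol

/-!
# Gauss words with three crossings: the unknot and the trefoil
-/

namespace Pool.Agent.Lib.MP_d1968e_gt

variable {α β : Type}

/-- The alternating Gauss word of the standard diagram of the trefoil knot. -/
def trefoilWord (a b c : α) : List (α × Bool) :=
  [(a, true), (b, false), (c, true), (a, false), (b, true), (c, false)]

theorem REquiv.rfl' {w : List (α × Bool)} : REquiv w w := Relation.EqvGen.refl _

theorem REquiv.symm' {w v : List (α × Bool)} (h : REquiv w v) : REquiv v w :=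
  Relation.EqvGen.symm _ _ h

theorem REquiv.trans' {w v u : List (α × Bool)} (h : REquiv w v) (h2 : REquiv v u) :
    REquiv w u := Relation.EqvGen.trans _ _ _ h h2

theorem Move.requiv {w v : List (α × Bool)} (h : Move w v) : REquiv w v :=
  Relation.EqvGen.rel _ _ h

theorem requiv_rotate (u v : List (α × Bool)) : REquiv (u ++ v) (v ++ u) :=
  (Move.rotate u v).requiv

/-- An injective change of names. -/
theorem Move.map (f : α ↪ β) {w v : List (α × Bool)} (h : Move w v) :
    Move (w.map fun x => (f x.1, x.2)) (v.map fun x => (f x.1, x.2)) := by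
  classical
  have hinj : ∀ {L : List (α × Bool)} {i : α}, (∀ x ∈ L, x.1 ≠ i) →
      ∀ x ∈ L.map (fun x => (f x.1, x.2)), x.1 ≠ f i := by
    intro L i h x hx
    obtain ⟨y, hy, rfl⟩ := List.mem_map.1 hx
    exact fun h2 => h y hy (f.injective h2)
  cases h with
  | rotate u v =>
    simp only [List.map_append]
    exact Move.rotate _ _
  | reverse w =>
    rw [List.map_reverse]
    exact Move.reverse _
  | relabel g w =>
    have h := Move.relabel (Equiv.Perm.viaEmbedding g f) (w.map fun x => (f x.1, x.2))
    rw [List.map_map] at h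
    rw [List.map_map]
    convert h using 2
    funext x
    simp [Equiv.Perm.viaEmbedding_apply]
  | one u v i b hi =>
    have h := Move.one (u.map fun x => (f x.1, x.2)) (v.map fun x => (f x.1, x.2)) (f i) b
      (by rw [← List.map_append]; exact hinj hi)
    simpa using h
  | two u v w Y i j hij hY hi hj =>
    have h := Move.two (u.map fun x => (f x.1, x.2)) (v.map fun x => (f x.1, x.2))
      (w.map fun x => (f x.1, x.2)) (Y.map fun x => (f x.1, x.2)) (f i) (f j)
      (fun h => hij (f.injective h))
      (by rcases hY with rfl | rfl <;> simp)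
      (by rw [← List.map_append, ← List.map_append]; exact hinj hi)
      (by rw [← List.map_append, ← List.map_append]; exact hinj hj)
    simpa using h
  | three u v w t X Y Z i j k hij hik hjk hX hYZ hk =>
    have h := Move.three (u.map fun x => (f x.1, x.2)) (v.map fun x => (f x.1, x.2))
      (w.map fun x => (f x.1, x.2)) (t.map fun x => (f x.1, x.2))
      (X.map fun x => (f x.1, x.2)) (Y.map fun x => (f x.1, x.2))
      (Z.map fun x => (f x.1, x.2)) (f i) (f j) (f k)
      (fun h => hij (f.injective h)) (fun h => hik (f.injective h))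
      (fun h => hjk (f.injective h))
      (by rcases hX with rfl | rfl <;> simp)
      (by
        rcases hYZ with ⟨h1 | h1, h2 | h2⟩ | ⟨h1 | h1, h2 | h2⟩ <;> subst h1 <;> subst h2 <;>
          simp)
      (by rw [← List.map_append, ← List.map_append, ← List.map_append]; exact hinj hk)
    simpa using h

theorem REquiv.map (f : α ↪ β) {w v : List (α × Bool)} (h : REquiv w v) :
    REquiv (w.map fun x => (f x.1, x.2)) (v.map fun x => (f x.1, x.2)) := by
  induction h with
  | rel x y h => exact (h.map f).requiv
  | refl x => exact REquiv.rfl'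
  | symm x y _ ih => exact ih.symm'
  | trans x y z _ _ ih1 ih2 => exact ih1.trans' ih2

/-- Removing a kink. -/
theorem requiv_one (u v : List (α × Bool)) (i : α) (b : Bool)
    (hi : ∀ x ∈ u ++ v, x.1 ≠ i) : REquiv (u ++ [(i, b), (i, !b)] ++ v) (u ++ v) :=
  (Move.one u v i b hi).requiv.symm'

theorem requiv_kink (i : α) (b : Bool) : REquiv [(i, b), (i, !b)] [] := by
  have h := requiv_one [] [] i b (by simp)
  simpa using h

theorem requiv_kinks {a b c : α} (hab : a ≠ b) (hac : a ≠ c) (hbc : b ≠ c) (x y z : Bool) :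
    REquiv [(a, x), (a, !x), (b, y), (b, !y), (c, z), (c, !z)] [] := by
  have h1 := requiv_one [] [(b, y), (b, !y), (c, z), (c, !z)] a x
    (by simp [hab.symm, hac.symm])
  have h2 := requiv_one [] [(c, z), (c, !z)] b y (by simp [hbc.symm])
  have h1' : REquiv [(a, x), (a, !x), (b, y), (b, !y), (c, z), (c, !z)]
      [(b, y), (b, !y), (c, z), (c, !z)] := by simpa using h1
  have h2' : REquiv [(b, y), (b, !y), (c, z), (c, !z)] [(c, z), (c, !z)] := by simpa using h2
  exact h1'.trans' (h2'.trans' (requiv_kink c z))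

/-- Two consecutive crossings on the same level are removed by a move of the second kind. -/
theorem requiv_two_true {a b c : α} (hab : a ≠ b) (hac : a ≠ c) (hbc : b ≠ c) (z : Bool) :
    REquiv [(a, true), (b, true), (c, z), (a, false), (b, false), (c, !z)] [] := by
  have h := Move.two ([] : List (α × Bool)) [(c, z)] [(c, !z)] [(a, false), (b, false)] a b hab
    (Or.inl rfl) (by simp [hac.symm]) (by simp [hbc.symm])
  have h1 : REquiv [(a, true), (b, true), (c, z), (a, false), (b, false), (c, !z)]
      [(c, z), (c, !z)] := by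
    have := h.requiv.symm'
    simpa using this
  exact h1.trans' (requiv_kink c z)

theorem requiv_two {a b c : α} (hab : a ≠ b) (hac : a ≠ c) (hbc : b ≠ c) (x z : Bool) :
    REquiv [(a, x), (b, x), (c, z), (a, !x), (b, !x), (c, !z)] [] := by
  cases x
  · have h := requiv_rotate [(a, false), (b, false), (c, z)] [(a, true), (b, true), (c, !z)]
    have h2 := requiv_two_true hab hac hbc (!z)
    rw [Bool.not_not] at h2
    exact REquiv.trans' h h2
  · exact requiv_two_true hab hac hbc z

/-- The words whose three chords cross pairwise: the trefoil or the unknot. -/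
theorem requiv_cross {a b c : α} (hab : a ≠ b) (hac : a ≠ c) (hbc : b ≠ c) (x y z : Bool) :
    REquiv [(a, x), (b, y), (c, z), (a, !x), (b, !y), (c, !z)] [] ∨
      REquiv [(a, x), (b, y), (c, z), (a, !x), (b, !y), (c, !z)] (trefoilWord a b c) ∨
      REquiv [(a, x), (b, y), (c, z), (a, !x), (b, !y), (c, !z)] (trefoilWord b c a) := by
  by_cases hxy : x = y
  · subst hxy
    exact Or.inl (requiv_two hab hac hbc x z)
  by_cases hyz : y = z
  · subst hyz
    left
    have h := requiv_rotate [(a, x)] [(b, y), (c, y), (a, !x), (b, !y), (c, !y)]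
    have h2 := requiv_two hbc hab.symm hac.symm y (!x)
    rw [Bool.not_not] at h2
    exact REquiv.trans' h h2
  right
  have hy : y = !x := by revert hxy; cases x <;> cases y <;> decide
  have hz : z = x := by revert hxy hyz; cases x <;> cases y <;> cases z <;> decide
  subst hy hz
  cases z
  · right
    exact requiv_rotate [(a, false)] [(b, true), (c, false), (a, true), (b, false), (c, true)]
  · left
    exact REquiv.rfl'

/-- The word is equivalent to the empty word or to a trefoil word. -/
def UnknotOrTrefoil (w : List (α × Bool)) : Prop :=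
  REquiv w [] ∨ ∃ a b c : α, a ≠ b ∧ a ≠ c ∧ b ≠ c ∧ REquiv w (trefoilWord a b c)

theorem UnknotOrTrefoil.of_requiv {w v : List (α × Bool)} (h : REquiv w v)
    (hv : UnknotOrTrefoil v) : UnknotOrTrefoil w := by
  rcases hv with hv | ⟨a, b, c, h1, h2, h3, hv⟩
  · exact Or.inl (h.trans' hv)
  · exact Or.inr ⟨a, b, c, h1, h2, h3, h.trans' hv⟩

theorem UnknotOrTrefoil.map (f : α ↪ β) {w : List (α × Bool)} (h : UnknotOrTrefoil w) :
    UnknotOrTrefoil (w.map fun x => (f x.1, x.2)) := by
  rcases h with h | ⟨a, b, c, h1, h2, h3, h⟩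
  · exact Or.inl (by simpa using h.map f)
  · refine Or.inr ⟨f a, f b, f c, fun h => h1 (f.injective h), fun h => h2 (f.injective h),
      fun h => h3 (f.injective h), ?_⟩
    have := h.map f
    simpa [trefoilWord] using this

theorem unknotOrTrefoil_cross {a b c : α} (hab : a ≠ b) (hac : a ≠ c) (hbc : b ≠ c)
    (x y z : Bool) : UnknotOrTrefoil [(a, x), (b, y), (c, z), (a, !x), (b, !y), (c, !z)] := by
  rcases requiv_cross hab hac hbc x y z with h | h | h
  · exact Or.inl h
  · exact Or.inr ⟨a, b, c, hab, hac, hbc, h⟩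
  · exact Or.inr ⟨b, c, a, hbc, hab.symm, hac.symm, h⟩

theorem unknotOrTrefoil_kinks {a b c : α} (hab : a ≠ b) (hac : a ≠ c) (hbc : b ≠ c)
    (x y z : Bool) : UnknotOrTrefoil [(a, x), (a, !x), (b, y), (b, !y), (c, z), (c, !z)] :=
  Or.inl (requiv_kinks hab hac hbc x y z)

theorem unknotOrTrefoil_kinks' {a b c : α} (hab : a ≠ b) (hac : a ≠ c) (hbc : b ≠ c)
    (x y z : Bool) : UnknotOrTrefoil [(a, !x), (b, y), (b, !y), (c, z), (c, !z), (a, x)] := by
  refine UnknotOrTrefoil.of_requiv ?_ (unknotOrTrefoil_kinks hab hac hbc x y z)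
  exact requiv_rotate [(a, !x), (b, y), (b, !y), (c, z), (c, !z)] [(a, x)]

/-- The three shapes. -/
def shape (w : List (Fin 3 × Bool)) : Prop :=
  ∃ a b c : Fin 3, a ≠ b ∧ a ≠ c ∧ b ≠ c ∧ ∃ x y z : Bool,
    w = [(a, x), (b, y), (c, z), (a, !x), (b, !y), (c, !z)] ∨
    w = [(a, x), (a, !x), (b, y), (b, !y), (c, z), (c, !z)] ∨
    w = [(a, !x), (b, y), (b, !y), (c, z), (c, !z), (a, x)]

instance (w : List (Fin 3 × Bool)) : Decidable (shape w) := by
  unfold shape
  infer_instance

theorem shape_wordC (tri u01 u02 u12 c : Bool) (k : Fin 6) (hk : k = 0 ∨ k = 3) :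
    shape (Mosaic.wordC tri u01 u02 u12 c k) := by
  rcases hk with rfl | rfl <;> revert tri u01 u02 u12 c <;> decide

theorem unknotOrTrefoil_wordC (tri u01 u02 u12 c : Bool) (k : Fin 6) (hk : k = 0 ∨ k = 3) :
    UnknotOrTrefoil (Mosaic.wordC tri u01 u02 u12 c k) := by
  obtain ⟨a, b, d, hab, had, hbd, x, y, z, h | h | h⟩ := shape_wordC tri u01 u02 u12 c k hk
  · rw [h]
    exact unknotOrTrefoil_cross hab had hbd x y z
  · rw [h]
    exact unknotOrTrefoil_kinks hab had hbd x y z
  · rw [h]
    exact unknotOrTrefoil_kinks' hab had hbd x y z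

theorem flab_injective : Function.Injective flab := by
  intro i j h
  have h2 : lab i = lab j := congrArg Prod.snd h
  revert h2
  revert i j
  decide

namespace Mosaic

theorem requiv_word_step {r : ℕ} {M : Mosaic r} {x : Pos × Fin 6}
    (hx : x ∈ Function.periodicPts M.step) : REquiv (M.word (M.step x)) (M.word x) := by
  obtain ⟨u, v, h1, h2⟩ := word_step hx
  rw [h1, h2]
  exact requiv_rotate v u

theorem requiv_word_iterate {r : ℕ} {M : Mosaic r} {x : Pos × Fin 6}
    (hx : x ∈ Function.periodicPts M.step) (t : ℕ) :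
    REquiv (M.word (M.step^[t] x)) (M.word x) := by
  induction t with
  | zero => exact REquiv.rfl'
  | succ t ih =>
    rw [Function.iterate_succ_apply']
    refine REquiv.trans' (requiv_word_step ?_) ih
    obtain ⟨n, hn, hp⟩ := hx
    exact ⟨n, hn, hp.apply_iterate t⟩

/-- Every Gauss word of a suitably connected mosaic of size two with triple-crossing centre is
equivalent to that of the unknot or of the trefoil. -/
theorem unknotOrTrefoil_two {M : Mosaic 2} (hS : M.SuitablyConnected) (hT : M.AllTriple)
    {x : Pos × Fin 6} (hx : M.Used x) : UnknotOrTrefoil (M.word x) := by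
  obtain ⟨c, hc⟩ := exists_connC hS hT
  have hstep : M.step = stepC c := funext (step_eq hc)
  have hper : ∀ k : Fin 6, k = 0 ∨ k = 3 → ((0, 0), k) ∈ Function.periodicPts M.step := by
    intro k hk
    apply Function.minimalPeriod_pos_iff_mem_periodicPts.1
    rw [hstep, minimalPeriod_stepC c k hk]
    norm_num
  have hbase : ∀ k : Fin 6, k = 0 ∨ k = 3 → UnknotOrTrefoil (M.word ((0, 0), k)) := by
    intro k hk
    rw [word_eq hc k hk]
    exact (unknotOrTrefoil_wordC _ _ _ _ c k hk).map ⟨flab, flab_injective⟩
  have hreach : ∃ t : Fin 9, (stepC c)^[t] ((0, 0), 0) = x ∨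
      (stepC c)^[t] ((0, 0), 3) = x := by
    rcases cases_of_used hc hx with ⟨k, rfl⟩ | ⟨s, k, rfl⟩
    · exact reach0 c k
    · exact reach c s k ((used_iff hc _).1 hx)
  obtain ⟨t, ht | ht⟩ := hreach
  · rw [← ht, ← hstep]
    exact (hbase 0 (Or.inl rfl)).of_requiv (requiv_word_iterate (hper 0 (Or.inl rfl)) t)
  · rw [← ht, ← hstep]
    exact (hbase 3 (Or.inr rfl)).of_requiv (requiv_word_iterate (hper 3 (Or.inr rfl)) t)

end Mosaic

end Pool.Agent.Lib.MP_d1968e_gt
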