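import Pool.Agent.Lib.MP_d1968e_gt.Word

/-!
# The mosaics of size two with triple-crossing centre
-/

namespace Pool.Agent.Lib.MP_d1968e_gt

/-- The partner on the corner tile `s`, when the even sides (`c = true`) or the odd sides are
used. -/
def cornerEnd (c : Bool) (s : Fin 6) : Fin 6 :=
  if (decide (s.val % 2 = 0)) = c then s + 2 else s + 4

/-- The connections of the tile at `p`. -/
def connC (c : Bool) (p : Pos) (k : Fin 6) : Fin 6 :=
  if p = (0, 0) then k + 3 else
  match (List.finRange 6).find? (fun s => decide (dir s = p)) with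
  | none => k
  | some s => if k = s + 3 then cornerEnd c s else if k = cornerEnd c s then s + 3 else k

def stepC (c : Bool) (x : Pos × Fin 6) : Pos × Fin 6 :=
  (x.1 + dir (connC c x.1 x.2), connC c x.1 x.2 + 3)

theorem connC_zero (c : Bool) (k : Fin 6) : connC c (0, 0) k = k + 3 := by
  simp [connC]

theorem connC_dir (c : Bool) (s k : Fin 6) : connC c (dir s) k =
    if k = s + 3 then cornerEnd c s else if k = cornerEnd c s then s + 3 else k := by
  revert c s k
  decide

namespace Mosaic

variable {M : Mosaic 2}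

theorem dir_eq_side (s : Fin 6) : sideP 2 s 0 = dir s := by
  fin_cases s <;> simp [sideP, dir]

theorem exists_connC (hS : M.SuitablyConnected) (hT : M.AllTriple) :
    ∃ c : Bool, ∀ p k, (M.tile p).conn k = connC c p k := by
  have h01 := side_alternate hS hT (by omega) 0
  have h12 := side_alternate hS hT (by omega) 1
  have h23 := side_alternate hS hT (by omega) 2
  have h34 := side_alternate hS hT (by omega) 3
  have h45 := side_alternate hS hT (by omega) 4
  simp only [show (0 : Fin 6) + 1 = 1 by rfl, show (1 : Fin 6) + 1 = 2 by rfl,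
    show (2 : Fin 6) + 1 = 3 by rfl, show (3 : Fin 6) + 1 = 4 by rfl,
    show (4 : Fin 6) + 1 = 5 by rfl, dir_eq_side] at h01 h12 h23 h34 h45
  obtain ⟨c, hc⟩ : ∃ c : Bool, ∀ s : Fin 6, M.Used (dir s, s + 2) ↔
      (decide (s.val % 2 = 0)) = c := by
    refine ⟨decide (M.Used (dir 0, 0 + 2)), ?_⟩
    by_cases h : M.Used (dir 0, 0 + 2)
    · rw [decide_eq_true h]
      intro s
      fin_cases s <;> simp <;> tauto
    · rw [decide_eq_false h]
      intro s
      fin_cases s <;> simp <;> tauto
  refine ⟨c, fun p k => ?_⟩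
  by_cases hp : p = (0, 0)
  · subst hp
    rw [connC_zero]
    exact hT (0, 0) (by simp [hexDist]) k
  by_cases hp2 : ∃ s, dir s = p
  · obtain ⟨s, rfl⟩ := hp2
    rw [connC_dir]
    obtain ⟨a0, a1, a5, a3⟩ := corner_used hS hT (by omega) s
    have h24 := corner_lateral hS hT (by omega) s
    rw [dir_eq_side] at a0 a1 a5 a3 h24
    have hcs := hc s
    -- the end of the lateral arc
    have hx : M.Used (dir s, cornerEnd c s) := by
      unfold cornerEnd
      split_ifs with h
      · exact hcs.2 h
      · by_contra hcon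
        exact h (hcs.1 (h24.2 hcon))
    have hx2 : ∀ l, M.Used (dir s, l) → l = s + 3 ∨ l = cornerEnd c s := by
      intro l hl
      rcases shift_cases s l with h | h | h | h | h | h
      · exact absurd (h ▸ hl) a0
      · exact absurd (h ▸ hl) a1
      · right
        subst h
        unfold cornerEnd
        rw [if_pos (hcs.1 hl)]
      · exact Or.inl h
      · right
        subst h
        unfold cornerEnd
        rw [if_neg]
        intro h
        exact h24.1 (hcs.2 h) hl
      · exact absurd (h ▸ hl) a5
    have hx3 : M.Used (M.mate (dir s, s + 3)) := used_mate _ a3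
    have hne : (M.tile (dir s)).conn (s + 3) ≠ s + 3 := a3
    have hconn : (M.tile (dir s)).conn (s + 3) = cornerEnd c s := by
      rcases hx2 _ hx3 with h | h
      · exact absurd h hne
      · exact h
    split_ifs with h1 h2
    · rw [h1, hconn]
    · rw [h2, ← hconn, (M.tile (dir s)).conn_conn]
    · by_contra hcon
      rcases hx2 k hcon with h | h
      · exact h1 h
      · exact h2 h
  · have hnone : (List.finRange 6).find? (fun s => decide (dir s = p)) = none := by
      rw [List.find?_eq_none]
      intro s _ h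
      exact hp2 ⟨s, of_decide_eq_true h⟩
    have h1 : connC c p k = k := by
      unfold connC
      rw [if_neg hp, hnone]
    rw [h1]
    apply M.empty_of_le
    by_contra hcon
    have h2 : hexDist p ≤ 1 := by
      push_cast at hcon
      omega
    rw [hexDist_le_iff] at h2
    obtain ⟨a, b⟩ := p
    simp only at h2
    apply hp2
    have ha : a = -1 ∨ a = 0 ∨ a = 1 := by omega
    have hb : b = -1 ∨ b = 0 ∨ b = 1 := by omega
    rcases ha with rfl | rfl | rfl <;> rcases hb with rfl | rfl | rfl
    · omega
    · exact ⟨3, rfl⟩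
    · exact ⟨2, rfl⟩
    · exact ⟨4, rfl⟩
    · exact absurd rfl hp
    · exact ⟨1, rfl⟩
    · exact ⟨5, rfl⟩
    · exact ⟨0, rfl⟩
    · omega

theorem step_eq {c : Bool} (hc : ∀ p k, (M.tile p).conn k = connC c p k)
    (x : Pos × Fin 6) : M.step x = stepC c x := by
  unfold step mate opp stepC
  simp only [hc]

theorem used_iff {c : Bool} (hc : ∀ p k, (M.tile p).conn k = connC c p k)
    (x : Pos × Fin 6) : M.Used x ↔ connC c x.1 x.2 ≠ x.2 := by
  unfold Used
  rw [hc]

theorem cases_of_used {c : Bool} (hc : ∀ p k, (M.tile p).conn k = connC c p k)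
    {x : Pos × Fin 6} (hx : M.Used x) :
    (∃ k, x = ((0, 0), k)) ∨ (∃ s k, x = (dir s, k)) := by
  rw [used_iff hc] at hx
  obtain ⟨p, k⟩ := x
  simp only at hx
  by_cases hp : p = (0, 0)
  · left
    exact ⟨k, by rw [hp]⟩
  · right
    unfold connC at hx
    rw [if_neg hp] at hx
    rcases h : (List.finRange 6).find? (fun s => decide (dir s = p)) with _ | s
    · rw [h] at hx
      exact absurd rfl hx
    · have := List.find?_some h
      exact ⟨s, k, by rw [of_decide_eq_true this]⟩

theorem reach (c : Bool) (s k : Fin 6) (h : connC c (dir s) k ≠ k) :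
    ∃ t : Fin 9, (stepC c)^[t] ((0, 0), 0) = (dir s, k) ∨
      (stepC c)^[t] ((0, 0), 3) = (dir s, k) := by
  revert c s k
  decide

theorem reach0 (c : Bool) (k : Fin 6) :
    ∃ t : Fin 9, (stepC c)^[t] ((0, 0), 0) = ((0, 0), k) ∨
      (stepC c)^[t] ((0, 0), 3) = ((0, 0), k) := by
  revert c k
  decide

end Mosaic

/-- Names of the three crossings of a triple-crossing tile. -/
def lab : Fin 3 → Fin 6 × Fin 6 := ![(0, 1), (0, 2), (1, 2)]

def lidx (i j : Fin 6) : Fin 3 :=
  if (min i j, max i j) = (0, 1) then 0 else if (min i j, max i j) = (0, 2) then 1 else 2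

def uu (u01 u02 u12 : Bool) (i j : Fin 6) : Bool :=
  if (i, j) = (0, 1) then u01 else if (i, j) = (0, 2) then u02 else u12

/-- The letters read when crossing a triple-crossing tile from the edge `k`. -/
def L3 (tri u01 u02 u12 : Bool) (k : Fin 6) : List (Fin 3 × Bool) :=
  (if decide (k.val % 2 = 0) ≠ tri then [k + 2, k + 1] else [k + 1, k + 2]).map fun c =>
    (lidx (min k (k + 3)) (min c (c + 3)),
      if min k (k + 3) < min c (c + 3) then uu u01 u02 u12 (min k (k + 3)) (min c (c + 3))
      else !(uu u01 u02 u12 (min c (c + 3)) (min k (k + 3))))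

theorem letters_triple (T : Tile) (h : ∀ k, T.conn k = k + 3) (k : Fin 6) :
    T.letters k = (L3 T.tri (T.upper 0 1) (T.upper 0 2) (T.upper 1 2) k).map
      fun x => (lab x.1, x.2) := by
  obtain ⟨conn, cc, upper, tri⟩ := T
  have h2 : conn = fun k => k + 3 := funext h
  subst h2
  fin_cases k <;> cases tri <;> rfl

theorem letters_nil (T : Tile) {k : Fin 6} (h : T.crossers k = []) : T.letters k = [] := by
  unfold Tile.letters Tile.crossersInOrder
  rw [h]
  split_ifs <;> rfl

theorem crossers_corner (T : Tile) (c : Bool) (s : Fin 6)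
    (h : ∀ k, T.conn k = connC c (dir s) k) (k : Fin 6) : T.crossers k = [] := by
  unfold Tile.crossers
  simp only [h]
  clear h
  revert c s k
  decide

theorem crossers_empty (T : Tile) (h : ∀ k, T.conn k = k) (k : Fin 6) :
    T.crossers k = [] := by
  unfold Tile.crossers
  simp only [h]
  clear h
  revert k
  decide

/-- Label of a crossing of the centre tile. -/
def flab (i : Fin 3) : Label := ((0, 0), lab i)

def lettersC (tri u01 u02 u12 : Bool) (x : Pos × Fin 6) : List (Fin 3 × Bool) :=
  if x.1 = (0, 0) then L3 tri u01 u02 u12 x.2 else []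

namespace Mosaic

variable {M : Mosaic 2}

theorem letters_eq {c : Bool} (hc : ∀ p k, (M.tile p).conn k = connC c p k)
    (x : Pos × Fin 6) : M.letters x =
      (lettersC (M.tile (0, 0)).tri ((M.tile (0, 0)).upper 0 1) ((M.tile (0, 0)).upper 0 2)
        ((M.tile (0, 0)).upper 1 2) x).map fun l => (flab l.1, l.2) := by
  obtain ⟨p, k⟩ := x
  unfold letters lettersC
  simp only
  split_ifs with hp
  · subst hp
    rw [letters_triple _ (fun k => by rw [hc, connC_zero]), List.map_map]
    rfl
  · have hk : (M.tile p).crossers k = [] := by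
      by_cases hp2 : ∃ s, dir s = p
      · obtain ⟨s, rfl⟩ := hp2
        exact crossers_corner _ c s (fun k => hc _ _) k
      · apply crossers_empty
        intro l
        rw [hc]
        have hnone : (List.finRange 6).find? (fun s => decide (dir s = p)) = none := by
          rw [List.find?_eq_none]
          intro s _ h
          exact hp2 ⟨s, of_decide_eq_true h⟩
        unfold connC
        rw [if_neg hp, hnone]
    rw [letters_nil _ hk]
    rfl

theorem minimalPeriod_stepC (c : Bool) (k : Fin 6) (hk : k = 0 ∨ k = 3) :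
    Function.minimalPeriod (stepC c) ((0, 0), k) = 9 := by
  apply minimalPeriod_eq (by norm_num)
  · rcases hk with rfl | rfl <;> revert c <;> decide
  · have : ∀ m : Fin 9, 0 < m.val → (stepC c)^[m.val] ((0, 0), k) ≠ ((0, 0), k) := by
      rcases hk with rfl | rfl <;> revert c <;> decide
    intro m hm hm2
    exact this ⟨m, hm2⟩ hm

/-- The word of the centre, as a word in three labels. -/
def wordC (tri u01 u02 u12 c : Bool) (k : Fin 6) : List (Fin 3 × Bool) :=
  (List.range 9).flatMap fun t => lettersC tri u01 u02 u12 ((stepC c)^[t] ((0, 0), k))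

theorem word_eq {c : Bool} (hc : ∀ p k, (M.tile p).conn k = connC c p k) (k : Fin 6)
    (hk : k = 0 ∨ k = 3) : M.word ((0, 0), k) =
      (wordC (M.tile (0, 0)).tri ((M.tile (0, 0)).upper 0 1) ((M.tile (0, 0)).upper 0 2)
        ((M.tile (0, 0)).upper 1 2) c k).map fun l => (flab l.1, l.2) := by
  have hstep : M.step = stepC c := funext (step_eq hc)
  unfold word wordC
  rw [hstep, minimalPeriod_stepC c k hk, List.map_flatMap]
  congr 1
  funext t
  exact letters_eq hc _

/-- The explicit words. -/
theorem wordC_eq (tri u01 u02 u12 c : Bool) (k : Fin 6) (hk : k = 0 ∨ k = 3) :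
    ∃ a b d : Fin 6, ((k = 0 ∧ ((a, b, d) = (0, 2, 4) ∨ (a, b, d) = (0, 4, 2))) ∨
      (k = 3 ∧ ((a, b, d) = (3, 1, 5) ∨ (a, b, d) = (3, 5, 1)))) ∧
      wordC tri u01 u02 u12 c k =
        L3 tri u01 u02 u12 a ++ L3 tri u01 u02 u12 b ++ L3 tri u01 u02 u12 d := by
  rcases hk with rfl | rfl
  · cases c
    · exact ⟨0, 4, 2, Or.inl ⟨rfl, Or.inr rfl⟩, by revert tri u01 u02 u12; decide⟩
    · exact ⟨0, 2, 4, Or.inl ⟨rfl, Or.inl rfl⟩, by revert tri u01 u02 u12; decide⟩
  · cases c
    · exact ⟨3, 5, 1, Or.inr ⟨rfl, Or.inr rfl⟩, by revert tri u01 u02 u12; decide⟩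
    · exact ⟨3, 1, 5, Or.inr ⟨rfl, Or.inl rfl⟩, by revert tri u01 u02 u12; decide⟩

end Mosaic

end Pool.Agent.Lib.MP_d1968e_gt
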