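import Pool.Agent.Lib.MP_d1968e_gt.Two

/-!
# The words of the mosaics of size two have no colouring modulo five
-/

namespace Pool.Agent.Lib.MP_d1968e_gt

theorem runs_shift {α : Type} {R : Type} [CommRing R] {c : α → R} {w : List (α × Bool)}
    {x y : R} (t : R) (h : Runs c w x y) : Runs (fun i => c i - t) w (x - t) (y - t) := by
  induction w generalizing x with
  | nil =>
    rw [runs_nil] at h ⊢
    rw [h]
  | cons a w ih =>
    obtain ⟨i, b⟩ := a
    cases b
    · rw [runs_false] at h ⊢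
      have := ih h
      rwa [show 2 * c i - x - t = 2 * (c i - t) - (x - t) by ring] at this
    · rw [runs_true] at h ⊢
      exact ⟨by rw [h.1], ih h.2⟩

instance decRuns {α : Type} {R : Type} [CommRing R] [DecidableEq R] (c : α → R) :
    ∀ (w : List (α × Bool)) (x y : R), Decidable (Runs c w x y)
  | [], x, y => inferInstanceAs (Decidable (x = y))
  | (i, true) :: w, x, y =>
    haveI := decRuns c w x y
    inferInstanceAs (Decidable (x = c i ∧ Runs c w x y))
  | (i, false) :: w, x, y =>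
    haveI := decRuns c w (2 * c i - x) y
    inferInstanceAs (Decidable (Runs c w (2 * c i - x) y))

theorem uncol_aux0 : ∀ tri u01 u02 u12 : Bool, ∀ a b d : ZMod 5,
    Runs ![a, b, d] (L3 tri u01 u02 u12 0 ++ L3 tri u01 u02 u12 2 ++ L3 tri u01 u02 u12 4) 0 0 →
      a = 0 ∧ b = 0 ∧ d = 0 := by
  decide

theorem uncol_aux1 : ∀ tri u01 u02 u12 : Bool, ∀ a b d : ZMod 5,
    Runs ![a, b, d] (L3 tri u01 u02 u12 0 ++ L3 tri u01 u02 u12 4 ++ L3 tri u01 u02 u12 2) 0 0 →
      a = 0 ∧ b = 0 ∧ d = 0 := by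
  decide

theorem uncol_aux2 : ∀ tri u01 u02 u12 : Bool, ∀ a b d : ZMod 5,
    Runs ![a, b, d] (L3 tri u01 u02 u12 3 ++ L3 tri u01 u02 u12 1 ++ L3 tri u01 u02 u12 5) 0 0 →
      a = 0 ∧ b = 0 ∧ d = 0 := by
  decide

theorem uncol_aux3 : ∀ tri u01 u02 u12 : Bool, ∀ a b d : ZMod 5,
    Runs ![a, b, d] (L3 tri u01 u02 u12 3 ++ L3 tri u01 u02 u12 5 ++ L3 tri u01 u02 u12 1) 0 0 →
      a = 0 ∧ b = 0 ∧ d = 0 := by
  decide

theorem not_colorable_of {w : List (Fin 3 × Bool)}
    (h : ∀ a b d : ZMod 5, Runs ![a, b, d] w 0 0 → a = 0 ∧ b = 0 ∧ d = 0) :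
    ¬ Colorable (ZMod 5) w := by
  rintro ⟨x, c, hr, l, -, hlx⟩
  have h1 := runs_shift x hr
  rw [sub_self] at h1
  have h2 : (fun i => c i - x) = ![c 0 - x, c 1 - x, c 2 - x] := by
    funext i
    fin_cases i <;> rfl
  rw [h2] at h1
  obtain ⟨h3, h4, h5⟩ := h _ _ _ h1
  apply hlx
  rw [sub_eq_zero] at h3 h4 h5
  have : ∀ i : Fin 3, c i = x := by
    intro i
    fin_cases i
    · exact h3
    · exact h4
    · exact h5
  exact this _

theorem not_colorable_wordC (tri u01 u02 u12 c : Bool) (k : Fin 6) (hk : k = 0 ∨ k = 3) :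
    ¬ Colorable (ZMod 5) (Mosaic.wordC tri u01 u02 u12 c k) := by
  obtain ⟨a, b, d, h, he⟩ := Mosaic.wordC_eq tri u01 u02 u12 c k hk
  rw [he]
  apply not_colorable_of
  rcases h with ⟨-, h | h⟩ | ⟨-, h | h⟩ <;> rw [Prod.mk.injEq, Prod.mk.injEq] at h <;>
    obtain ⟨rfl, rfl, rfl⟩ := h
  · exact uncol_aux0 tri u01 u02 u12
  · exact uncol_aux1 tri u01 u02 u12
  · exact uncol_aux2 tri u01 u02 u12
  · exact uncol_aux3 tri u01 u02 u12

namespace Mosaic

/-- No Gauss word of a mosaic of size two with triple-crossing centre has a nonconstant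
colouring modulo five. -/
theorem not_colorable_two {M : Mosaic 2} (hS : M.SuitablyConnected) (hT : M.AllTriple)
    {x : Pos × Fin 6} (hx : M.Used x) : ¬ Colorable (ZMod 5) (M.word x) := by
  obtain ⟨c, hc⟩ := exists_connC hS hT
  have hstep : M.step = stepC c := funext (step_eq hc)
  have hper : ∀ k : Fin 6, k = 0 ∨ k = 3 → ((0, 0), k) ∈ Function.periodicPts M.step := by
    intro k hk
    apply Function.minimalPeriod_pos_iff_mem_periodicPts.1
    rw [hstep, minimalPeriod_stepC c k hk]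
    norm_num
  have hbase : ∀ k : Fin 6, k = 0 ∨ k = 3 → ¬ Colorable (ZMod 5) (M.word ((0, 0), k)) := by
    intro k hk h
    rw [word_eq hc k hk] at h
    exact not_colorable_wordC _ _ _ _ c k hk (colorable_of_map flab h)
  have hreach : ∃ t : Fin 9, (stepC c)^[t] ((0, 0), 0) = x ∨
      (stepC c)^[t] ((0, 0), 3) = x := by
    rcases cases_of_used hc hx with ⟨k, rfl⟩ | ⟨s, k, rfl⟩
    · exact reach0 c k
    · exact reach c s k ((used_iff hc _).1 hx)
  obtain ⟨t, ht | ht⟩ := hreach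
  · rw [← ht, ← hstep, colorable_word_iterate (hper 0 (Or.inl rfl))]
    exact hbase 0 (Or.inl rfl)
  · rw [← ht, ← hstep, colorable_word_iterate (hper 3 (Or.inr rfl))]
    exact hbase 3 (Or.inr rfl)

end Mosaic

end Pool.Agent.Lib.MP_d1968e_gt
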