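import Pool.Agent.Lib.MP_d1968e_gt.Color
import Pool.Agent.Lib.MP_d1968e_gt.Comp

/-!
# Gauss words of mosaics: change of the base point
-/

namespace Pool.Agent.Lib.MP_d1968e_gt

theorem colorable_of_map {α β : Type} {R : Type} [CommRing R] (f : α → β)
    {w : List (α × Bool)} (h : Colorable R (w.map fun x => (f x.1, x.2))) : Colorable R w := by
  obtain ⟨x, c, hr, l, hl, hlx⟩ := h
  obtain ⟨l', hl', rfl⟩ := List.mem_map.1 hl
  exact ⟨x, c ∘ f, (runs_map _ _ _ _ _).1 hr, l', hl', hlx⟩

namespace Mosaic

variable {r : ℕ} {M : Mosaic r}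

theorem minimalPeriod_eq {X : Type*} {f : X → X} {x : X} {n : ℕ} (hn : 0 < n)
    (h : f^[n] x = x) (hmin : ∀ m, 0 < m → m < n → f^[m] x ≠ x) :
    Function.minimalPeriod f x = n := by
  have hp : Function.IsPeriodicPt f n x := h
  apply le_antisymm (hp.minimalPeriod_le hn)
  by_contra hcon
  push Not at hcon
  exact hmin _ (hp.minimalPeriod_pos hn) hcon (Function.isPeriodicPt_minimalPeriod f x)

theorem word_step {x : Pos × Fin 6} (hx : x ∈ Function.periodicPts M.step) :
    ∃ u v, M.word x = u ++ v ∧ M.word (M.step x) = v ++ u := by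
  unfold word
  rw [Function.minimalPeriod_apply hx]
  have hpos : 0 < Function.minimalPeriod M.step x := Function.minimalPeriod_pos_of_mem_periodicPts hx
  obtain ⟨n, hn⟩ : ∃ n, Function.minimalPeriod M.step x = n + 1 := ⟨_, (Nat.succ_pred_eq_of_pos hpos).symm⟩
  have hper : M.step^[n + 1] x = x := by
    rw [← hn]
    exact Function.isPeriodicPt_minimalPeriod M.step x
  rw [hn]
  refine ⟨M.letters x, (List.range n).flatMap fun t => M.letters (M.step^[t + 1] x), ?_, ?_⟩
  · rw [List.range_succ_eq_map, List.flatMap_cons, List.flatMap_map]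
    rfl
  · rw [List.range_succ, List.flatMap_append]
    congr 1
    rw [List.flatMap_singleton]
    show M.letters (M.step^[n] (M.step x)) = _
    rw [← Function.iterate_succ_apply, hper]

theorem colorable_word_step {R : Type} [CommRing R] {x : Pos × Fin 6}
    (hx : x ∈ Function.periodicPts M.step) :
    Colorable R (M.word (M.step x)) ↔ Colorable R (M.word x) := by
  obtain ⟨u, v, h1, h2⟩ := word_step hx
  rw [h1, h2]
  exact ⟨colorable_rotate, colorable_rotate⟩

theorem colorable_word_iterate {R : Type} [CommRing R] {x : Pos × Fin 6}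
    (hx : x ∈ Function.periodicPts M.step) (t : ℕ) :
    Colorable R (M.word (M.step^[t] x)) ↔ Colorable R (M.word x) := by
  induction t with
  | zero => rfl
  | succ t ih =>
    rw [Function.iterate_succ_apply', colorable_word_step, ih]
    obtain ⟨n, hn, hp⟩ := hx
    exact ⟨n, hn, hp.apply_iterate t⟩

end Mosaic

end Pool.Agent.Lib.MP_d1968e_gt
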